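import Mathlib

set_option autoImplicit false

/-! Counting separated points of the circle whose multiples by given integers are near integers. -/

namespace Pool.Agent.V7H41.PX
open Finset

lemma card_sep (S : Finset ℝ) (N : ℕ) (hN : 1 ≤ N) (a b : ℝ) (hab : a ≤ b) (hS : ∀ x ∈ S, a ≤ x ∧ x ≤ b)
    (hsep : ∀ x ∈ S, ∀ y ∈ S, x ≠ y → 1 / (N : ℝ) ≤ |x - y|) : (S.card : ℝ) ≤ 1 + N * (b - a) := by
  have hN0 : (0 : ℝ) < N := by exact_mod_cast hN
  have h1 : S.card ≤ (range (⌊(N : ℝ) * (b - a)⌋₊ + 1)).card := by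
    apply card_le_card_of_injOn (fun x : ℝ => ⌊(N : ℝ) * (x - a)⌋₊)
    · intro x hx
      rw [mem_coe] at hx
      obtain ⟨h2, h3⟩ := hS x hx
      simp only [coe_range, Set.mem_Iio]
      apply Nat.lt_succ_of_le
      apply Nat.floor_le_floor
      nlinarith
    · intro x hx y hy hxy
      rw [mem_coe] at hx hy
      simp only at hxy
      by_contra hne
      have h4 := hsep x hx y hy hne
      have h5 : (0 : ℝ) ≤ (N : ℝ) * (x - a) := mul_nonneg hN0.le (by linarith [(hS x hx).1])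
      have h6 : (0 : ℝ) ≤ (N : ℝ) * (y - a) := mul_nonneg hN0.le (by linarith [(hS y hy).1])
      have a1 := Nat.floor_le h5
      have a2 := Nat.lt_floor_add_one ((N : ℝ) * (x - a))
      have b1 := Nat.floor_le h6
      have b2 := Nat.lt_floor_add_one ((N : ℝ) * (y - a))
      rw [hxy] at a1 a2
      have h7 : |(N : ℝ) * (x - a) - N * (y - a)| < 1 := by
        rw [abs_lt]
        constructor <;> linarith
      have h8 : (N : ℝ) * (x - a) - N * (y - a) = N * (x - y) := by ring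
      rw [h8, abs_mul, abs_of_pos hN0] at h7
      rw [div_le_iff₀ hN0] at h4
      linarith
  rw [card_range] at h1
  have h2 : (S.card : ℝ) ≤ (⌊(N : ℝ) * (b - a)⌋₊ : ℝ) + 1 := by exact_mod_cast h1
  have h3 := Nat.floor_le (show (0 : ℝ) ≤ (N : ℝ) * (b - a) from mul_nonneg hN0.le (by linarith))
  linarith

lemma card_cong (S : Finset ℤ) (q : ℕ) (hq : 1 ≤ q) (a : ℤ) (L : ℕ) (hS : ∀ x ∈ S, a ≤ x ∧ x ≤ a + L)
    (hc : ∀ x ∈ S, ∀ y ∈ S, (q : ℤ) ∣ x - y) : S.card ≤ L / q + 1 := by
  have hq0 : (0 : ℤ) < q := by exact_mod_cast hq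
  rw [← card_range (L / q + 1)]
  apply card_le_card_of_injOn (fun x : ℤ => ((x - a) / q).toNat)
  · intro x hx
    rw [mem_coe] at hx
    obtain ⟨h2, h3⟩ := hS x hx
    simp only [coe_range, Set.mem_Iio]
    have h4 : (x - a) / q ≤ (L : ℤ) / q := Int.ediv_le_ediv hq0 (by omega)
    have h5 : ((L / q : ℕ) : ℤ) = (L : ℤ) / q := by push_cast; rfl
    have h6 : 0 ≤ (x - a) / q := Int.ediv_nonneg (by omega) hq0.le
    omega
  · intro x hx y hy hxy
    rw [mem_coe] at hx hy
    simp only at hxy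
    have h1 : 0 ≤ (x - a) / q := Int.ediv_nonneg (by linarith [(hS x hx).1]) hq0.le
    have h2 : 0 ≤ (y - a) / q := Int.ediv_nonneg (by linarith [(hS y hy).1]) hq0.le
    have h3 : (x - a) / q = (y - a) / q := by omega
    have h4 : (x - a) % q = (y - a) % q := by
      apply Int.emod_eq_emod_iff_emod_sub_eq_zero.2
      rw [show x - a - (y - a) = x - y by ring]
      exact Int.emod_eq_zero_of_dvd (hc x hx y hy)
    have h5 := Int.mul_ediv_add_emod (x - a) q
    have h6 := Int.mul_ediv_add_emod (y - a) q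
    rw [h3, h4] at h5
    linarith

/-- The number of the separated points `x` of the circle for which all the `D i * x` are near integers. -/
theorem count (m : ℕ) (D : Fin (m + 1) → ℤ) (L R G : ℕ) (ε : ℝ) (N : ℕ) (hN : 1 ≤ N) (S : Finset ℝ) (hε : 0 < ε)
    (hS : ∀ x ∈ S, 0 ≤ x ∧ x < 1 ∧ ∀ i, ∃ n : ℤ, |(D i : ℝ) * x - n| < ε)
    (hsep : ∀ x ∈ S, ∀ y ∈ S, x ≠ y → 1 / (N : ℝ) ≤ |x - y|)
    (h0 : D 0 ≠ 0) (hL : ∀ i, |D i| ≤ L) (hR : 2 * ε * L ≤ R + 1) (hG : ∀ g : ℕ, (∀ i, (g : ℤ) ∣ D i) → g ≤ G) :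
    (S.card : ℝ) ≤ (2 * R + 1) ^ (m + 1) * ((G + 1) * (1 + 2 * ε * N / |(D 0 : ℝ)|)) := by
  classical
  have hN0 : (0 : ℝ) < N := by exact_mod_cast hN
  have hD0 : (0 : ℝ) < |(D 0 : ℝ)| := abs_pos.2 (by exact_mod_cast h0)
  obtain ⟨b, hb⟩ : ∃ b : ℝ → Fin (m + 1) → ℤ, b = fun x i => round ((D i : ℝ) * x) := ⟨_, rfl⟩
  have hbn : ∀ x ∈ S, ∀ i, |(D i : ℝ) * x - b x i| < ε := by
    intro x hx i
    obtain ⟨n, hn⟩ := (hS x hx).2.2 i
    rw [hb]
    exact lt_of_le_of_lt (round_le _ n) hn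
  obtain ⟨r, hr⟩ : ∃ r : ℝ → Fin (m + 1) → ℤ, r = fun x i => b x i * D 0 - b x 0 * D i := ⟨_, rfl⟩
  have hrR : ∀ x ∈ S, ∀ i, |r x i| ≤ R := by
    intro x hx i
    have e1 : ((r x i : ℤ) : ℝ) = (D i : ℝ) * ((D 0 : ℝ) * x - b x 0) - (D 0 : ℝ) * ((D i : ℝ) * x - b x i) := by
      rw [hr]
      push_cast
      ring
    have h1 := hbn x hx 0
    have h2 := hbn x hx i
    have h3 : |(D i : ℝ)| ≤ L := by exact_mod_cast hL i
    have h4 : |(D 0 : ℝ)| ≤ L := by exact_mod_cast hL 0
    have h5 : |((r x i : ℤ) : ℝ)| < R + 1 := by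
      rw [e1]
      refine lt_of_le_of_lt (abs_sub _ _) ?_
      rw [abs_mul, abs_mul]
      have h6 : |(D i : ℝ)| * |(D 0 : ℝ) * x - b x 0| ≤ L * ε := mul_le_mul h3 h1.le (abs_nonneg _) (Nat.cast_nonneg _)
      have h7 : |(D 0 : ℝ)| * |(D i : ℝ) * x - b x i| < |(D 0 : ℝ)| * ε := mul_lt_mul_of_pos_left h2 hD0
      have h8 : |(D 0 : ℝ)| * ε ≤ L * ε := mul_le_mul_of_nonneg_right h4 hε.le
      linarith
    have h6 : |r x i| < (R : ℤ) + 1 := by exact_mod_cast h5
    omega
  -- the gcd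
  obtain ⟨g, hg⟩ : ∃ g : ℕ, g = univ.gcd (fun i => (D i).natAbs) := ⟨_, rfl⟩
  have hgd : ∀ i, (g : ℤ) ∣ D i := by
    intro i
    rw [Int.natCast_dvd, hg]
    exact Finset.gcd_dvd (mem_univ i)
  have hD0n : (D 0).natAbs ≠ 0 := Int.natAbs_ne_zero.2 h0
  have hg0 : g ≠ 0 := by
    intro h
    have := hgd 0
    rw [h] at this
    simp only [Nat.cast_zero, zero_dvd_iff] at this
    exact h0 this
  have hgG : g ≤ G := hG g hgd
  obtain ⟨q, hq⟩ : g ∣ (D 0).natAbs := by
    rw [hg]
    exact Finset.gcd_dvd (f := fun i => (D i).natAbs) (mem_univ 0)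
  have hq0 : q ≠ 0 := by
    intro h
    rw [h, mul_zero] at hq
    exact hD0n hq
  have hgpos : 0 < g := Nat.pos_of_ne_zero hg0
  have hqpos : 0 < q := Nat.pos_of_ne_zero hq0
  -- the fibres
  have hfib : ∀ r₀ : Fin (m + 1) → ℤ, ((S.filter fun x => r x = r₀).card : ℝ) ≤ (G + 1) * (1 + 2 * ε * N / |(D 0 : ℝ)|) := by
    intro r₀
    obtain ⟨F, hF⟩ : ∃ F, F = S.filter fun x => r x = r₀ := ⟨_, rfl⟩
    rw [← hF]
    have hFS : ∀ x ∈ F, x ∈ S ∧ r x = r₀ := by
      intro x hx
      rw [hF, mem_filter] at hx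
      exact hx
    obtain ⟨T, hT⟩ : ∃ T, T = F.image fun x => b x 0 := ⟨_, rfl⟩
    have hTcard : T.card ≤ G + 1 := by
      have h1 : T.card ≤ (D 0).natAbs / q + 1 := by
        apply card_cong T q hqpos (min 0 (D 0)) (D 0).natAbs
        · intro a ha
          rw [hT, mem_image] at ha
          obtain ⟨x, hx, rfl⟩ := ha
          obtain ⟨hx0, hx1, -⟩ := hS x (hFS x hx).1
          have h2 : |(D 0 : ℝ) * x - b x 0| ≤ 1 / 2 := by
            rw [hb]
            exact abs_sub_round _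
          rw [abs_le] at h2
          rcases lt_or_gt_of_ne h0 with h3 | h3
          · have h4 : (D 0 : ℝ) < 0 := by exact_mod_cast h3
            have h5 : (D 0 : ℝ) ≤ D 0 * x := by nlinarith
            have h6 : (D 0 : ℝ) * x ≤ 0 := by nlinarith
            have h7 : ((b x 0 : ℤ) : ℝ) < 1 := by linarith
            have h8 : ((D 0 - 1 : ℤ) : ℝ) < (b x 0 : ℤ) := by push_cast; linarith
            have h9 : b x 0 < 1 := by exact_mod_cast h7
            have h10 : D 0 - 1 < b x 0 := by exact_mod_cast h8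
            omega
          · have h4 : (0 : ℝ) < (D 0 : ℝ) := by exact_mod_cast h3
            have h5 : (D 0 : ℝ) * x ≤ D 0 := by nlinarith
            have h6 : 0 ≤ (D 0 : ℝ) * x := by positivity
            have h7 : ((b x 0 : ℤ) : ℝ) < ((D 0 + 1 : ℤ) : ℝ) := by push_cast; linarith
            have h8 : ((-1 : ℤ) : ℝ) < (b x 0 : ℤ) := by push_cast; linarith
            have h9 : b x 0 < D 0 + 1 := by exact_mod_cast h7
            have h10 : -1 < b x 0 := by exact_mod_cast h8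
            omega
        · intro a ha a' ha'
          rw [hT, mem_image] at ha ha'
          obtain ⟨x, hx, rfl⟩ := ha
          obtain ⟨y, hy, rfl⟩ := ha'
          have h2 : ∀ i, D 0 ∣ (b x 0 - b y 0) * D i := by
            intro i
            have h3 : r x i = r y i := by rw [(hFS x hx).2, (hFS y hy).2]
            rw [hr] at h3
            simp only at h3
            exact ⟨b x i - b y i, by linarith⟩
          have h3 : (D 0).natAbs ∣ univ.gcd (fun i => (b x 0 - b y 0).natAbs * (D i).natAbs) := by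
            apply Finset.dvd_gcd
            intro i _
            rw [← Int.natAbs_mul]
            exact Int.natAbs_dvd_natAbs.2 (h2 i)
          rw [Finset.gcd_mul_left, normalize_eq, ← hg, hq, mul_comm g q] at h3
          have h4 : q ∣ (b x 0 - b y 0).natAbs := Nat.dvd_of_mul_dvd_mul_right hgpos h3
          exact Int.natCast_dvd.2 h4
      have h2 : (D 0).natAbs / q = g := by rw [hq, Nat.mul_div_cancel _ hqpos]
      omega
    have h1 : (F.card : ℝ) = ∑ a ∈ T, ((F.filter fun x => b x 0 = a).card : ℝ) := by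
      have := card_eq_sum_card_fiberwise (s := F) (t := T) (f := fun x => b x 0) (by
        intro x hx
        rw [mem_coe] at hx
        rw [hT]
        simp only [coe_image]
        exact ⟨x, hx, rfl⟩)
      rw [this]
      push_cast
      rfl
    rw [h1]
    have h2 : ∀ a ∈ T, ((F.filter fun x => b x 0 = a).card : ℝ) ≤ 1 + 2 * ε * N / |(D 0 : ℝ)| := by
      intro a _
      have h3 := card_sep (F.filter fun x => b x 0 = a) N hN ((a : ℝ) / D 0 - ε / |(D 0 : ℝ)|) ((a : ℝ) / D 0 + ε / |(D 0 : ℝ)|)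
        (by have : 0 < ε / |(D 0 : ℝ)| := by positivity
            linarith)
        (by
          intro x hx
          rw [mem_filter] at hx
          have h4 := hbn x (hFS x hx.1).1 0
          rw [hx.2] at h4
          have hD0' : (D 0 : ℝ) ≠ 0 := by exact_mod_cast h0
          have h5 : x - (a : ℝ) / D 0 = ((D 0 : ℝ) * x - a) / D 0 := by field_simp
          have h6 : |x - (a : ℝ) / D 0| ≤ ε / |(D 0 : ℝ)| := by
            rw [h5, abs_div]
            exact div_le_div_of_nonneg_right h4.le hD0.le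
          rw [abs_le] at h6
          constructor <;> linarith)
        (by
          intro x hx y hy hxy
          rw [mem_filter] at hx hy
          exact hsep x (hFS x hx.1).1 y (hFS y hy.1).1 hxy)
      refine h3.trans (le_of_eq ?_)
      ring
    refine (sum_le_card_nsmul _ _ _ h2).trans ?_
    rw [nsmul_eq_mul]
    apply mul_le_mul_of_nonneg_right _ (by positivity)
    exact_mod_cast hTcard
  have hbox : ∀ x ∈ S, r x ∈ Fintype.piFinset (fun _ : Fin (m + 1) => Icc (-(R : ℤ)) R) := by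
    intro x hx
    rw [Fintype.mem_piFinset]
    intro i
    rw [mem_Icc, ← abs_le]
    exact hrR x hx i
  have h1 : (S.card : ℝ) = ∑ r₀ ∈ Fintype.piFinset (fun _ : Fin (m + 1) => Icc (-(R : ℤ)) R),
      ((S.filter fun x => r x = r₀).card : ℝ) := by
    have := card_eq_sum_card_fiberwise (s := S) (t := Fintype.piFinset (fun _ : Fin (m + 1) => Icc (-(R : ℤ)) R)) (f := r) (by
      intro x hx
      rw [mem_coe] at hx
      rw [mem_coe]
      exact hbox x hx)
    rw [this]
    push_cast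
    rfl
  rw [h1]
  refine (sum_le_card_nsmul _ _ _ (fun r₀ _ => hfib r₀)).trans ?_
  rw [nsmul_eq_mul]
  apply mul_le_mul_of_nonneg_right _ (by positivity)
  rw [Fintype.card_piFinset]
  simp only [Int.card_Icc, prod_const, card_univ, Fintype.card_fin]
  have e1 : ((R : ℤ) + 1 - -(R : ℤ)).toNat = 2 * R + 1 := by omega
  rw [e1]
  push_cast
  exact le_rfl

end Pool.Agent.V7H41.PX
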