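import Pool.Agent.V7H41.PX.Par
import Pool.Agent.Helper112.LS

set_option autoImplicit false

/-! Few large Fourier coefficients from a bound of the additive energy. -/

namespace Pool.Agent.V7H41.PX
open Finset
open Pool.Agent.Helper112 (ee ls_general lsSep ls_ee_add ls_norm_ee)

lemma ee_eq (t : ℝ) : ee t = e t := by
  unfold ee e
  congr 1
  ring

lemma ee_sum {κ : Type} (s : Finset κ) (f : κ → ℝ) : ee (∑ j ∈ s, f j) = ∏ j ∈ s, ee (f j) := by
  classical
  induction s using Finset.induction_on with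
  | empty => simp [ee]
  | insert a s ha ih => rw [sum_insert ha, prod_insert ha, ls_ee_add, ih]

/-- The number of the pairs of `p`-tuples with equal sums. -/
noncomputable def energy' {ι : Type} [Fintype ι] (p : ℕ) (v : ι → ℤ) : ℝ :=
  ∑ f : Fin p → ι, ∑ f' : Fin p → ι, if ∑ j, v (f j) = ∑ j, v (f' j) then 1 else 0

lemma energy'_nonneg {ι : Type} [Fintype ι] (p : ℕ) (v : ι → ℤ) : 0 ≤ energy' p v := by
  unfold energy'
  apply sum_nonneg
  intro f _
  apply sum_nonneg
  intro f' _
  split_ifs <;> norm_num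

theorem few_energy {ι : Type} [Fintype ι] [Nonempty ι] (v : ι → ℤ) (p A L : ℕ) (hA : 1 ≤ A) (hv : ∀ i, |v i| ≤ L) (ρ : ℝ) (hρ : 0 < ρ) :
    FewLarge (fun _ : ι => 1 / (Fintype.card ι : ℝ)) v A ρ
      (1 + 6 * (((2 * p * L + 1 : ℕ) : ℝ) + A) * energy' p v / ((Fintype.card ι : ℝ) ^ (2 * p) * ρ ^ (2 * p))) := by
  classical
  intro S hS hsep
  have hA0 : (0 : ℝ) < A := by exact_mod_cast hA
  have hc0 : (0 : ℝ) < (Fintype.card ι : ℝ) := by exact_mod_cast Fintype.card_pos
  obtain ⟨S', hS'⟩ : ∃ S' : Finset ℝ, S' = S.filter fun a => a < 1 - 1 / (A : ℝ) := ⟨_, rfl⟩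
  obtain ⟨S'', hS''⟩ : ∃ S'' : Finset ℝ, S'' = S.filter fun a => ¬ a < 1 - 1 / (A : ℝ) := ⟨_, rfl⟩
  have hcard : S.card = S'.card + S''.card := by
    rw [hS', hS'']
    exact (card_filter_add_card_filter_not _).symm
  have h1 : S''.card ≤ 1 := by
    rw [card_le_one]
    intro a ha b hb
    rw [hS'', mem_filter] at ha hb
    by_contra hne
    have h2 := hsep a ha.1 b hb.1 hne
    have h3 := (hS a ha.1).2.1
    have h4 := (hS b hb.1).2.1
    have h5 := not_lt.1 ha.2
    have h6 := not_lt.1 hb.2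
    have h7 : |a - b| < 1 / (A : ℝ) := by
      rw [abs_lt]
      constructor <;> linarith
    linarith
  -- the sums
  obtain ⟨s, hs⟩ : ∃ s : (Fin p → ι) → ℤ, s = fun f => ∑ j, v (f j) + (p * L + 1 : ℕ) := ⟨_, rfl⟩
  have hsr : ∀ f, 1 ≤ s f ∧ s f ≤ (2 * p * L + 1 : ℕ) := by
    intro f
    have h2 : |∑ j, v (f j)| ≤ (p * L : ℕ) := by
      refine (abs_sum_le_sum_abs _ _).trans ?_
      refine (sum_le_card_nsmul _ _ _ (fun j _ => hv (f j))).trans (le_of_eq ?_)
      rw [card_univ, Fintype.card_fin, nsmul_eq_mul]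
      push_cast
      ring
    rw [abs_le] at h2
    rw [hs]
    simp only
    have h3 : 2 * p * L = p * L + p * L := by ring
    rw [h3]
    push_cast at h2 ⊢
    constructor <;> omega
  obtain ⟨t, ht⟩ : ∃ t : (Fin p → ι) → ℕ, t = fun f => (s f).toNat := ⟨_, rfl⟩
  have hts : ∀ f, ((t f : ℕ) : ℤ) = s f := by
    intro f
    rw [ht]
    exact Int.toNat_of_nonneg (by linarith [(hsr f).1])
  have htr : ∀ f, t f ∈ Icc 1 (2 * p * L + 1) := by
    intro f
    rw [mem_Icc]
    have h2 := hsr f
    rw [← hts f] at h2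
    exact_mod_cast h2
  have key := ls_general S' (fun a => a) A (2 * p * L + 1) hA
    (by
      intro r hr s' hs' hrs
      rw [hS', mem_filter] at hr hs'
      have h2 := hsep r hr.1 s' hs'.1 hrs
      have h3 := (hS r hr.1).1
      have h4 := (hS s' hs'.1).1
      have h5 := hr.2
      have h6 := hs'.2
      have h7 : 0 < 1 / (A : ℝ) := by positivity
      rcases lt_or_gt_of_ne hrs with h | h
      · rw [abs_of_neg (by linarith)] at h2
        have h8 : Int.fract (s' - r) = s' - r := by
          rw [Int.fract_eq_self]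
          constructor <;> linarith
        unfold lsSep
        rw [h8]
        constructor <;> linarith
      · rw [abs_of_pos (by linarith)] at h2
        have h8 : Int.fract (s' - r) = s' - r + 1 := by
          rw [Int.fract_eq_iff]
          refine ⟨by linarith, by linarith, -1, by push_cast; ring⟩
        unfold lsSep
        rw [h8]
        constructor <;> linarith)
    (fun n => ∑ f : Fin p → ι, if t f = n then (1 : ℂ) else 0)
  have h2 : ∀ a : ℝ, ∑ n ∈ Icc 1 (2 * p * L + 1), (∑ f : Fin p → ι, if t f = n then (1 : ℂ) else 0) * ee (n * a) =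
      ee ((p * L + 1 : ℕ) * a) * (∑ i, ee ((v i : ℝ) * a)) ^ p := by
    intro a
    have e1 : ∀ n ∈ Icc 1 (2 * p * L + 1), (∑ f : Fin p → ι, if t f = n then (1 : ℂ) else 0) * ee (n * a) =
        ∑ f : Fin p → ι, if t f = n then ee ((t f : ℕ) * a) else 0 := by
      intro n _
      rw [sum_mul]
      apply sum_congr rfl
      intro f _
      split_ifs with h
      · rw [one_mul, h]
      · rw [zero_mul]
    rw [sum_congr rfl e1, sum_comm, Fintype.sum_pow, mul_sum]
    apply sum_congr rfl
    intro f _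
    rw [sum_ite_eq, if_pos (htr f)]
    have e2 : ((t f : ℕ) : ℝ) = ∑ j, (v (f j) : ℝ) + (p * L + 1 : ℕ) := by
      have := hts f
      rw [hs] at this
      simp only at this
      exact_mod_cast congrArg (fun z : ℤ => (z : ℝ)) this
    rw [e2, add_mul, ls_ee_add, sum_mul, ee_sum]
    ring
  have h3 : ∀ a ∈ S', (Fintype.card ι : ℝ) ^ (2 * p) * ρ ^ (2 * p) ≤
      ‖∑ n ∈ Icc 1 (2 * p * L + 1), (∑ f : Fin p → ι, if t f = n then (1 : ℂ) else 0) * ee (n * a)‖ ^ 2 := by
    intro a ha
    rw [hS', mem_filter] at ha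
    rw [h2, norm_mul, ls_norm_ee, one_mul, norm_pow, ← pow_mul, mul_comm p 2, ← mul_pow]
    apply pow_le_pow_left₀ (by positivity)
    have h4 := (hS a ha.1).2.2
    have h5 : φ (fun _ : ι => 1 / (Fintype.card ι : ℝ)) v a = ((1 / (Fintype.card ι : ℝ) : ℝ) : ℂ) * ∑ i, ee ((v i : ℝ) * a) := by
      unfold φ
      rw [mul_sum]
      apply sum_congr rfl
      intro i _
      rw [ee_eq]
    rw [h5, norm_mul, Complex.norm_real, Real.norm_of_nonneg (by positivity), one_div, inv_mul_eq_div, lt_div_iff₀ hc0] at h4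
    linarith
  have h4 : ∑ n ∈ Icc 1 (2 * p * L + 1), ‖∑ f : Fin p → ι, if t f = n then (1 : ℂ) else 0‖ ^ 2 = energy' p v := by
    have e1 : ∀ n ∈ Icc 1 (2 * p * L + 1), ‖∑ f : Fin p → ι, if t f = n then (1 : ℂ) else 0‖ ^ 2 =
        ∑ f : Fin p → ι, ∑ f' : Fin p → ι, if t f = n then (if t f' = n then (1 : ℝ) else 0) else 0 := by
      intro n _
      have e2 : (∑ f : Fin p → ι, if t f = n then (1 : ℂ) else 0) = ((∑ f : Fin p → ι, if t f = n then (1 : ℝ) else 0 : ℝ) : ℂ) := by
        rw [Complex.ofReal_sum]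
        apply sum_congr rfl
        intro f _
        split_ifs <;> simp
      rw [e2, Complex.norm_real, Real.norm_of_nonneg (sum_nonneg fun f _ => by split_ifs <;> norm_num), sq, sum_mul_sum]
      apply sum_congr rfl
      intro f _
      apply sum_congr rfl
      intro f' _
      split_ifs <;> norm_num
    rw [sum_congr rfl e1, sum_comm]
    unfold energy'
    apply sum_congr rfl
    intro f _
    rw [sum_comm]
    apply sum_congr rfl
    intro f' _
    rw [sum_ite_eq, if_pos (htr f)]
    have e3 : t f' = t f ↔ ∑ j, v (f j) = ∑ j, v (f' j) := by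
      constructor
      · intro h
        have h5 := hts f
        have h6 := hts f'
        rw [h, h5] at h6
        rw [hs] at h6
        simp only at h6
        linarith
      · intro h
        have h5 := hts f
        have h6 := hts f'
        have h7 : s f = s f' := by
          rw [hs]
          simp only
          rw [h]
        have h8 : ((t f' : ℕ) : ℤ) = t f := by rw [h5, h6, h7]
        exact_mod_cast h8
    by_cases h : t f' = t f
    · rw [if_pos h, if_pos (e3.1 h)]
    · rw [if_neg h, if_neg (fun h' => h (e3.2 h'))]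
  rw [h4] at key
  have h5 : (S'.card : ℝ) * ((Fintype.card ι : ℝ) ^ (2 * p) * ρ ^ (2 * p)) ≤ 6 * (((2 * p * L + 1 : ℕ) : ℝ) + A) * energy' p v := by
    refine le_trans ?_ key
    rw [← nsmul_eq_mul, ← sum_const]
    exact sum_le_sum h3
  have h6 : (S'.card : ℝ) ≤ 6 * (((2 * p * L + 1 : ℕ) : ℝ) + A) * energy' p v / ((Fintype.card ι : ℝ) ^ (2 * p) * ρ ^ (2 * p)) := by
    rw [le_div_iff₀ (by positivity)]
    exact h5
  have h7 : (S.card : ℝ) = S'.card + S''.card := by exact_mod_cast hcard
  have h8 : (S''.card : ℝ) ≤ 1 := by exact_mod_cast h1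
  rw [h7]
  linarith

end Pool.Agent.V7H41.PX
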