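import Pool.Agent.V7H41.PX.Cnt

set_option autoImplicit false

/-! The law of `X Y + Z`, `X` independent of `(Y, Z)`, has few large Fourier coefficients if `X` has few and `Y` is spread. -/

namespace Pool.Agent.V7H41.PX
open Finset

noncomputable def e (t : ℝ) : ℂ := Complex.exp (2 * Real.pi * Complex.I * t)

noncomputable def φ {ι : Type} [Fintype ι] (w : ι → ℝ) (v : ι → ℤ) (α : ℝ) : ℂ := ∑ i, (w i : ℂ) * e ((v i : ℝ) * α)

def FewLarge {ι : Type} [Fintype ι] (w : ι → ℝ) (v : ι → ℤ) (N : ℕ) (ρ K : ℝ) : Prop :=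
  ∀ S : Finset ℝ, (∀ a ∈ S, 0 ≤ a ∧ a < 1 ∧ ρ < ‖φ w v a‖) → (∀ a ∈ S, ∀ b ∈ S, a ≠ b → 1 / (N : ℝ) ≤ |a - b|) → (S.card : ℝ) ≤ K

lemma e_add (s t : ℝ) : e (s + t) = e s * e t := by
  unfold e
  rw [← Complex.exp_add]
  congr 1
  push_cast
  ring

lemma e_int (n : ℤ) : e (n : ℝ) = 1 := by
  unfold e
  rw [Complex.exp_eq_one_iff]
  exact ⟨n, by push_cast; ring⟩

lemma norm_e (t : ℝ) : ‖e t‖ = 1 := by
  unfold e
  rw [show (2 * Real.pi * Complex.I * t : ℂ) = ((2 * Real.pi * t : ℝ) : ℂ) * Complex.I by push_cast; ring]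
  exact Complex.norm_exp_ofReal_mul_I _

lemma φ_periodic {ι : Type} [Fintype ι] (w : ι → ℝ) (v : ι → ℤ) (α : ℝ) (n : ℤ) : φ w v (α + n) = φ w v α := by
  unfold φ
  apply sum_congr rfl
  intro i _
  have e1 : (v i : ℝ) * (α + n) = (v i : ℝ) * α + ((v i * n : ℤ) : ℝ) := by push_cast; ring
  rw [e1, e_add, e_int, mul_one]

lemma norm_φ_le {ι : Type} [Fintype ι] (w : ι → ℝ) (v : ι → ℤ) (hw : ∀ i, 0 ≤ w i) (hw1 : ∑ i, w i = 1) (α : ℝ) : ‖φ w v α‖ ≤ 1 := by
  unfold φ
  refine (norm_sum_le _ _).trans ?_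
  rw [← hw1]
  apply sum_le_sum
  intro i _
  rw [norm_mul, norm_e, mul_one, Complex.norm_real, Real.norm_of_nonneg (hw i)]

/-- the large Fourier coefficients are near few points -/
lemma cover {ι : Type} [Fintype ι] (w : ι → ℝ) (v : ι → ℤ) (A : ℕ) (hA : 1 ≤ A) (ρ K : ℝ) (h : FewLarge w v A ρ K) :
    ∃ F : Finset ℝ, (F.card : ℝ) ≤ K ∧ ∀ β : ℝ, ρ < ‖φ w v β‖ → ∃ f ∈ F, ∃ n : ℤ, |β - f - n| < 1 / A := by
  classical
  have hA0 : (0 : ℝ) < A := by exact_mod_cast hA
  by_contra hcon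
  push Not at hcon
  have key : ∀ n : ℕ, ∃ S : Finset ℝ, S.card = n ∧ (∀ a ∈ S, 0 ≤ a ∧ a < 1 ∧ ρ < ‖φ w v a‖) ∧
      (∀ a ∈ S, ∀ b ∈ S, a ≠ b → 1 / (A : ℝ) ≤ |a - b|) := by
    intro n
    induction n with
    | zero => exact ⟨∅, rfl, by simp, by simp⟩
    | succ n ih =>
      obtain ⟨S, hS, h1, h2⟩ := ih
      obtain ⟨β, hβ, h3⟩ := hcon S (h S h1 h2)
      have h4 : ∀ f ∈ S, 1 / (A : ℝ) ≤ |Int.fract β - f| := by
        intro f hf
        have h5 := h3 f hf ⌊β⌋
        have e1 : β - f - (⌊β⌋ : ℤ) = Int.fract β - f := by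
          rw [← Int.self_sub_floor]
          ring
        rwa [e1] at h5
      have h5 : Int.fract β ∉ S := by
        intro hmem
        have h6 := h4 _ hmem
        rw [sub_self, abs_zero] at h6
        have : 0 < 1 / (A : ℝ) := by positivity
        linarith
      refine ⟨insert (Int.fract β) S, by rw [card_insert_of_notMem h5, hS], ?_, ?_⟩
      · intro a ha
        rw [mem_insert] at ha
        rcases ha with rfl | ha
        · refine ⟨Int.fract_nonneg _, Int.fract_lt_one _, ?_⟩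
          have e1 := φ_periodic w v (Int.fract β) ⌊β⌋
          rw [Int.fract_add_floor] at e1
          rw [← e1]
          exact hβ
        · exact h1 a ha
      · intro a ha b hb hab
        rw [mem_insert] at ha hb
        rcases ha with rfl | ha
        · rcases hb with rfl | hb
          · exact absurd rfl hab
          · exact h4 b hb
        · rcases hb with rfl | hb
          · rw [abs_sub_comm]
            exact h4 a ha
          · exact h2 a ha b hb hab
  obtain ⟨S, hS, h1, h2⟩ := key (⌊K⌋₊ + 1)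
  have h3 := h S h1 h2
  rw [hS] at h3
  have h4 := Nat.lt_floor_add_one K
  push_cast at h3
  linarith

section
variable {κ : Type} [Fintype κ]

open Classical in
/-- The probability of `R (y - y')` for independent copies. -/
noncomputable def coll (w : κ → ℝ) (y : κ → ℤ) (R : ℤ → Prop) : ℝ := ∑ k, ∑ l, if R (y k - y l) then w k * w l else 0

/-- The distance of `t` to the integers is less than `ε`. -/
def Near (ε t : ℝ) : Prop := ∃ n : ℤ, |t - n| < ε

open Classical in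
lemma coll_eq (w : κ → ℝ) (y : κ → ℤ) (R : ℤ → Prop) :
    coll w y R = ∑ q : κ × κ, if R (y q.1 - y q.2) then w q.1 * w q.2 else 0 := by
  unfold coll
  rw [Fintype.sum_prod_type]

lemma coll_nonneg (w : κ → ℝ) (y : κ → ℤ) (hw : ∀ k, 0 ≤ w k) (R : ℤ → Prop) : 0 ≤ coll w y R := by
  classical
  unfold coll
  apply sum_nonneg
  intro k _
  apply sum_nonneg
  intro l _
  split_ifs
  · exact mul_nonneg (hw k) (hw l)
  · exact le_rfl

open Classical in
/-- a large value of the characteristic function of `X Y + Z` -/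
lemma large_near {ι : Type} [Fintype ι] (u : ι → ℝ) (x : ι → ℤ) (hu : ∀ i, 0 ≤ u i) (hu1 : ∑ i, u i = 1)
    (w : κ → ℝ) (y z : κ → ℤ) (hw : ∀ k, 0 ≤ w k) (hw1 : ∑ k, w k = 1) (A : ℕ) (hA : 1 ≤ A) (ρ K : ℝ) (hρ : 0 < ρ) (hK : 0 < K)
    (hX : FewLarge u x A ρ K) (α : ℝ)
    (hα : 2 * ρ < ‖φ (fun q : ι × κ => u q.1 * w q.2) (fun q => x q.1 * y q.2 + z q.2) α‖) :
    (ρ / K) ^ 2 ≤ coll w y (fun d => Near (2 / (A : ℝ)) ((d : ℝ) * α)) := by
  obtain ⟨F, hF, hcov⟩ := cover u x A hA ρ K hX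
  have hA0 : (0 : ℝ) < A := by exact_mod_cast hA
  -- the mean of the characteristic function of X
  have h1 : ‖φ (fun q : ι × κ => u q.1 * w q.2) (fun q => x q.1 * y q.2 + z q.2) α‖ ≤ ∑ k, w k * ‖φ u x ((y k : ℝ) * α)‖ := by
    have e1 : φ (fun q : ι × κ => u q.1 * w q.2) (fun q => x q.1 * y q.2 + z q.2) α =
        ∑ k, ((w k : ℂ) * e ((z k : ℝ) * α)) * φ u x ((y k : ℝ) * α) := by
      unfold φ
      rw [Fintype.sum_prod_type, sum_comm]
      apply sum_congr rfl
      intro k _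
      rw [mul_sum]
      apply sum_congr rfl
      intro i _
      have e2 : (((x i * y k + z k : ℤ) : ℝ)) * α = (z k : ℝ) * α + (x i : ℝ) * ((y k : ℝ) * α) := by push_cast; ring
      simp only
      rw [e2, e_add]
      push_cast
      ring
    rw [e1]
    refine (norm_sum_le _ _).trans (le_of_eq ?_)
    apply sum_congr rfl
    intro k _
    rw [norm_mul, norm_mul, norm_e, mul_one, Complex.norm_real, Real.norm_of_nonneg (hw k)]
  have h2 : ∑ k, w k * ‖φ u x ((y k : ℝ) * α)‖ ≤ ∑ k, (if ρ < ‖φ u x ((y k : ℝ) * α)‖ then w k else 0) + ρ := by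
    have e1 : ρ = ∑ k, w k * ρ := by rw [← sum_mul, hw1, one_mul]
    rw [e1, ← sum_add_distrib]
    apply sum_le_sum
    intro k _
    rw [← e1]
    split_ifs with h
    · have h3 := norm_φ_le u x hu hu1 ((y k : ℝ) * α)
      have h4 : 0 ≤ w k * ρ := mul_nonneg (hw k) hρ.le
      have h5 : w k * ‖φ u x ((y k : ℝ) * α)‖ ≤ w k * 1 := mul_le_mul_of_nonneg_left h3 (hw k)
      linarith
    · rw [zero_add]
      exact mul_le_mul_of_nonneg_left (not_lt.1 h) (hw k)
  have h3 : ρ < ∑ k, (if ρ < ‖φ u x ((y k : ℝ) * α)‖ then w k else 0) := by linarith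
  -- pigeonhole
  have h4 : ∑ k, (if ρ < ‖φ u x ((y k : ℝ) * α)‖ then w k else 0) ≤
      ∑ f ∈ F, ∑ k, (if ∃ n : ℤ, |(y k : ℝ) * α - f - n| < 1 / A then w k else 0) := by
    rw [sum_comm]
    apply sum_le_sum
    intro k _
    split_ifs with h
    · obtain ⟨f, hf, hn⟩ := hcov _ h
      calc w k = if ∃ n : ℤ, |(y k : ℝ) * α - f - n| < 1 / A then w k else 0 := by rw [if_pos hn]
        _ ≤ _ := single_le_sum (f := fun f : ℝ => if ∃ n : ℤ, |(y k : ℝ) * α - f - n| < 1 / A then w k else 0)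
          (fun f _ => by
            split_ifs
            · exact hw k
            · exact le_rfl) hf
    · apply sum_nonneg
      intro f _
      split_ifs
      · exact hw k
      · exact le_rfl
  obtain ⟨f, hf, h5⟩ : ∃ f ∈ F, ρ / K ≤ ∑ k, (if ∃ n : ℤ, |(y k : ℝ) * α - f - n| < 1 / A then w k else 0) := by
    by_contra hcon
    push Not at hcon
    have h6 : ∑ f ∈ F, ∑ k, (if ∃ n : ℤ, |(y k : ℝ) * α - f - n| < 1 / A then w k else 0) ≤ F.card • (ρ / K) :=
      sum_le_card_nsmul _ _ _ (fun f hf => (hcon f hf).le)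
    rw [nsmul_eq_mul] at h6
    have h7 : (F.card : ℝ) * (ρ / K) ≤ K * (ρ / K) := mul_le_mul_of_nonneg_right hF (by positivity)
    rw [mul_div_cancel₀ _ hK.ne'] at h7
    linarith
  have hρK : 0 < ρ / K := by positivity
  calc (ρ / K) ^ 2 ≤ (∑ k, (if ∃ n : ℤ, |(y k : ℝ) * α - f - n| < 1 / A then w k else 0)) ^ 2 := pow_le_pow_left₀ hρK.le h5 2
    _ = ∑ k, ∑ l, (if ∃ n : ℤ, |(y k : ℝ) * α - f - n| < 1 / A then w k else 0) *
        (if ∃ n : ℤ, |(y l : ℝ) * α - f - n| < 1 / A then w l else 0) := by rw [sq, sum_mul_sum]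
    _ ≤ coll w y (fun d => Near (2 / (A : ℝ)) ((d : ℝ) * α)) := by
        unfold coll
        apply sum_le_sum
        intro k _
        apply sum_le_sum
        intro l _
        by_cases h6 : ∃ n : ℤ, |(y k : ℝ) * α - f - n| < 1 / A
        · by_cases h7 : ∃ n : ℤ, |(y l : ℝ) * α - f - n| < 1 / A
          · rw [if_pos h6, if_pos h7, if_pos]
            obtain ⟨n, hn⟩ := h6
            obtain ⟨n', hn'⟩ := h7
            refine ⟨n - n', ?_⟩
            have e1 : (((y k - y l : ℤ) : ℝ)) * α - ((n - n' : ℤ) : ℝ) = ((y k : ℝ) * α - f - n) - ((y l : ℝ) * α - f - n') := by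
              push_cast
              ring
            rw [e1]
            refine lt_of_le_of_lt (abs_sub _ _) ?_
            have : (2 : ℝ) / A = 1 / A + 1 / A := by ring
            linarith
          · rw [if_neg h7, mul_zero]
            split_ifs
            · exact mul_nonneg (hw k) (hw l)
            · exact le_rfl
        · rw [if_neg h6, zero_mul]
          split_ifs
          · exact mul_nonneg (hw k) (hw l)
          · exact le_rfl

open Classical in
/-- the law of `m + 1` independent differences -/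
lemma pow_coll (w : κ → ℝ) (y : κ → ℤ) (R : ℤ → Prop) (m : ℕ) :
    coll w y R ^ (m + 1) = ∑ f : Fin (m + 1) → κ × κ, if ∀ i, R (y (f i).1 - y (f i).2) then ∏ i, (w (f i).1 * w (f i).2) else 0 := by
  rw [coll_eq, Fintype.sum_pow]
  apply sum_congr rfl
  intro f _
  rw [Finset.prod_ite_zero]
  simp only [mem_univ, forall_true_left]

open Classical in
lemma first_coll (w : κ → ℝ) (y : κ → ℤ) (hw1 : ∑ k, w k = 1) (R : ℤ → Prop) (m : ℕ) :
    ∑ f : Fin (m + 1) → κ × κ, (if R (y (f 0).1 - y (f 0).2) then ∏ i, (w (f i).1 * w (f i).2) else 0) = coll w y R := by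
  have h1 : ∑ q : κ × κ, w q.1 * w q.2 = 1 := by
    rw [Fintype.sum_prod_type, ← sum_mul_sum, hw1, one_mul]
  have h2 := Finset.prod_univ_sum (fun _ : Fin (m + 1) => (univ : Finset (κ × κ)))
    (fun i q => if i = 0 ∧ ¬ R (y q.1 - y q.2) then (0 : ℝ) else w q.1 * w q.2)
  rw [Fin.prod_univ_succ, Fintype.piFinset_univ] at h2
  have e1 : ∑ q : κ × κ, (if (0 : Fin (m + 1)) = 0 ∧ ¬ R (y q.1 - y q.2) then (0 : ℝ) else w q.1 * w q.2) = coll w y R := by
    rw [coll_eq]
    apply sum_congr rfl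
    intro q _
    by_cases h : R (y q.1 - y q.2)
    · rw [if_neg (fun h' => h'.2 h), if_pos h]
    · rw [if_pos ⟨rfl, h⟩, if_neg h]
  have e2 : ∏ i : Fin m, ∑ q : κ × κ, (if i.succ = 0 ∧ ¬ R (y q.1 - y q.2) then (0 : ℝ) else w q.1 * w q.2) = 1 := by
    apply prod_eq_one
    intro i _
    rw [← h1]
    apply sum_congr rfl
    intro q _
    rw [if_neg (fun h' => Fin.succ_ne_zero i h'.1)]
  rw [e1, e2, mul_one] at h2
  rw [h2]
  apply sum_congr rfl
  intro f _
  by_cases h : R (y (f 0).1 - y (f 0).2)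
  · rw [if_pos h]
    apply prod_congr rfl
    intro i _
    rw [if_neg]
    rintro ⟨rfl, h'⟩
    exact h' h
  · rw [if_neg h]
    symm
    apply prod_eq_zero (mem_univ 0)
    rw [if_pos ⟨rfl, h⟩]

end

open Classical in
/-- **The number of the large Fourier coefficients of `X Y + Z`.** -/
theorem few_count {ι κ : Type} [Fintype ι] [Fintype κ] (u : ι → ℝ) (x : ι → ℤ) (hu : ∀ i, 0 ≤ u i) (hu1 : ∑ i, u i = 1)
    (w : κ → ℝ) (y z : κ → ℤ) (hw : ∀ k, 0 ≤ w k) (hw1 : ∑ k, w k = 1) (A : ℕ) (hA : 1 ≤ A) (ρ K : ℝ) (hρ : 0 < ρ) (hK : 0 < K)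
    (hX : FewLarge u x A ρ K) (N L R G m : ℕ) (L₁ : ℝ) (hN : 1 ≤ N) (hL₁ : 0 < L₁) (hL : ∀ k l, |y k - y l| ≤ L)
    (hR : 2 * (2 / (A : ℝ)) * L ≤ R + 1)
    (hbad : coll w y (fun d => |(d : ℝ)| < L₁) + ∑ g ∈ Ioc G L, coll w y (fun d => (g : ℤ) ∣ d) ^ (m + 1) ≤ ((ρ / K) ^ 2) ^ (m + 1) / 2) :
    FewLarge (fun q : ι × κ => u q.1 * w q.2) (fun q => x q.1 * y q.2 + z q.2) N (2 * ρ)
      (2 * ((2 * R + 1) ^ (m + 1) * ((G + 1) * (1 + 2 * (2 / (A : ℝ)) * N / L₁))) / ((ρ / K) ^ 2) ^ (m + 1)) := by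
  intro S hS hsep
  have hA0 : (0 : ℝ) < A := by exact_mod_cast hA
  have hN0 : (0 : ℝ) < N := by exact_mod_cast hN
  obtain ⟨ε, hε⟩ : ∃ ε : ℝ, ε = 2 / (A : ℝ) := ⟨_, rfl⟩
  have hε0 : 0 < ε := by rw [hε]; positivity
  obtain ⟨τ, hτ⟩ : ∃ τ : ℝ, τ = (ρ / K) ^ 2 := ⟨_, rfl⟩
  have hτ0 : 0 < τ := by rw [hτ]; positivity
  obtain ⟨Cn, hCn⟩ : ∃ Cn : ℝ, Cn = (2 * R + 1) ^ (m + 1) * ((G + 1) * (1 + 2 * ε * N / L₁)) := ⟨_, rfl⟩
  have hCn0 : 0 ≤ Cn := by rw [hCn]; positivity
  rw [← hε, ← hτ, ← hCn]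
  rw [← hε] at hR
  rw [← hτ] at hbad
  obtain ⟨W, hW⟩ : ∃ W : (Fin (m + 1) → κ × κ) → ℝ, W = fun f => ∏ i, (w (f i).1 * w (f i).2) := ⟨_, rfl⟩
  have hW0 : ∀ f, 0 ≤ W f := by
    intro f
    rw [hW]
    exact prod_nonneg fun i _ => mul_nonneg (hw _) (hw _)
  have hW1 : ∑ f, W f = 1 := by
    have h1 := first_coll w y hw1 (fun _ => True) m
    simp only [if_true] at h1
    rw [hW, h1]
    unfold coll
    simp only [if_true]
    rw [← sum_mul_sum, hw1, one_mul]
  -- lower bound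
  have h1 : (S.card : ℝ) * τ ^ (m + 1) ≤ ∑ a ∈ S, coll w y (fun d => Near ε ((d : ℝ) * a)) ^ (m + 1) := by
    rw [← nsmul_eq_mul, ← sum_const]
    apply sum_le_sum
    intro a ha
    apply pow_le_pow_left₀ hτ0.le
    rw [hτ, hε]
    exact large_near u x hu hu1 w y z hw hw1 A hA ρ K hρ hK hX a (hS a ha).2.2
  -- exchange
  have h2 : ∑ a ∈ S, coll w y (fun d => Near ε ((d : ℝ) * a)) ^ (m + 1) =
      ∑ f, W f * ((S.filter fun a => ∀ i, Near ε (((y (f i).1 - y (f i).2 : ℤ) : ℝ) * a)).card : ℝ) := by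
    have e1 : ∀ a ∈ S, coll w y (fun d => Near ε ((d : ℝ) * a)) ^ (m + 1) =
        ∑ f : Fin (m + 1) → κ × κ, if ∀ i, Near ε (((y (f i).1 - y (f i).2 : ℤ) : ℝ) * a) then W f else 0 := by
      intro a _
      rw [pow_coll, hW]
    rw [sum_congr rfl e1, sum_comm]
    apply sum_congr rfl
    intro f _
    rw [← sum_filter, sum_const, nsmul_eq_mul, mul_comm]
  -- the bound for each f
  have h3 : ∀ f : Fin (m + 1) → κ × κ, W f * ((S.filter fun a => ∀ i, Near ε (((y (f i).1 - y (f i).2 : ℤ) : ℝ) * a)).card : ℝ) ≤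
      (S.card : ℝ) * ((if |((y (f 0).1 - y (f 0).2 : ℤ) : ℝ)| < L₁ then W f else 0) +
        ∑ g ∈ Ioc G L, (if ∀ i, (g : ℤ) ∣ y (f i).1 - y (f i).2 then W f else 0)) + W f * Cn := by
    intro f
    have hs0 : (0 : ℝ) ≤ S.card := Nat.cast_nonneg _
    have hfil : ((S.filter fun a => ∀ i, Near ε (((y (f i).1 - y (f i).2 : ℤ) : ℝ) * a)).card : ℝ) ≤ S.card := by
      exact_mod_cast card_filter_le _ _
    have hg0 : 0 ≤ ∑ g ∈ Ioc G L, (if ∀ i, (g : ℤ) ∣ y (f i).1 - y (f i).2 then W f else 0) := by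
      apply sum_nonneg
      intro g _
      split_ifs
      · exact hW0 f
      · exact le_rfl
    by_cases hb1 : |((y (f 0).1 - y (f 0).2 : ℤ) : ℝ)| < L₁
    · rw [if_pos hb1]
      have h4 : W f * ((S.filter fun a => ∀ i, Near ε (((y (f i).1 - y (f i).2 : ℤ) : ℝ) * a)).card : ℝ) ≤ W f * S.card :=
        mul_le_mul_of_nonneg_left hfil (hW0 f)
      have h5 : 0 ≤ W f * Cn := mul_nonneg (hW0 f) hCn0
      have h6 : 0 ≤ (S.card : ℝ) * ∑ g ∈ Ioc G L, (if ∀ i, (g : ℤ) ∣ y (f i).1 - y (f i).2 then W f else 0) := mul_nonneg hs0 hg0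
      rw [mul_add]
      linarith [mul_comm (W f) (S.card : ℝ)]
    · rw [if_neg hb1, zero_add]
      by_cases hb2 : ∃ g ∈ Ioc G L, ∀ i, (g : ℤ) ∣ y (f i).1 - y (f i).2
      · obtain ⟨g, hg, hgd⟩ := hb2
        have h4 : W f ≤ ∑ g ∈ Ioc G L, (if ∀ i, (g : ℤ) ∣ y (f i).1 - y (f i).2 then W f else 0) := by
          calc W f = if ∀ i, (g : ℤ) ∣ y (f i).1 - y (f i).2 then W f else 0 := by rw [if_pos hgd]
            _ ≤ _ := single_le_sum (f := fun g : ℕ => if ∀ i, (g : ℤ) ∣ y (f i).1 - y (f i).2 then W f else 0)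
              (fun g _ => by
                split_ifs
                · exact hW0 f
                · exact le_rfl) hg
        have h5 : W f * ((S.filter fun a => ∀ i, Near ε (((y (f i).1 - y (f i).2 : ℤ) : ℝ) * a)).card : ℝ) ≤ W f * S.card :=
          mul_le_mul_of_nonneg_left hfil (hW0 f)
        have h6 : 0 ≤ W f * Cn := mul_nonneg (hW0 f) hCn0
        have h7 : (S.card : ℝ) * W f ≤ (S.card : ℝ) * ∑ g ∈ Ioc G L, (if ∀ i, (g : ℤ) ∣ y (f i).1 - y (f i).2 then W f else 0) :=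
          mul_le_mul_of_nonneg_left h4 hs0
        linarith [mul_comm (W f) (S.card : ℝ)]
      · have h4 : 0 ≤ (S.card : ℝ) * ∑ g ∈ Ioc G L, (if ∀ i, (g : ℤ) ∣ y (f i).1 - y (f i).2 then W f else 0) := mul_nonneg hs0 hg0
        have h5 : ((S.filter fun a => ∀ i, Near ε (((y (f i).1 - y (f i).2 : ℤ) : ℝ) * a)).card : ℝ) ≤ Cn := by
          have hD0 : y (f 0).1 - y (f 0).2 ≠ 0 := by
            intro h
            apply hb1
            rw [h]
            simpa using hL₁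
          have h6 := count m (fun i => y (f i).1 - y (f i).2) L R G ε N hN
            (S.filter fun a => ∀ i, Near ε (((y (f i).1 - y (f i).2 : ℤ) : ℝ) * a)) hε0
            (by
              intro a ha
              rw [mem_filter] at ha
              exact ⟨(hS a ha.1).1, (hS a ha.1).2.1, ha.2⟩)
            (by
              intro a ha b hb hab
              rw [mem_filter] at ha hb
              exact hsep a ha.1 b hb.1 hab)
            hD0 (fun i => hL _ _) hR
            (by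
              intro g hg
              by_contra hlt
              apply hb2
              refine ⟨g, ?_, hg⟩
              rw [mem_Ioc]
              refine ⟨not_le.1 hlt, ?_⟩
              have h7 := Int.le_of_dvd (abs_pos.2 hD0) ((dvd_abs _ _).2 (hg 0))
              have h8 := hL (f 0).1 (f 0).2
              exact_mod_cast h7.trans h8)
          refine h6.trans ?_
          rw [hCn]
          apply mul_le_mul_of_nonneg_left _ (by positivity)
          apply mul_le_mul_of_nonneg_left _ (by positivity)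
          apply add_le_add le_rfl
          apply div_le_div_of_nonneg_left (by positivity) hL₁
          exact not_lt.1 hb1
        have h6 : W f * ((S.filter fun a => ∀ i, Near ε (((y (f i).1 - y (f i).2 : ℤ) : ℝ) * a)).card : ℝ) ≤ W f * Cn :=
          mul_le_mul_of_nonneg_left h5 (hW0 f)
        linarith
  have h4 : (S.card : ℝ) * τ ^ (m + 1) ≤ (S.card : ℝ) * (τ ^ (m + 1) / 2) + Cn := by
    refine h1.trans ?_
    rw [h2]
    refine (sum_le_sum fun f _ => h3 f).trans ?_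
    rw [sum_add_distrib, ← sum_mul, hW1, one_mul, ← mul_sum, sum_add_distrib]
    apply add_le_add _ le_rfl
    apply mul_le_mul_of_nonneg_left _ (Nat.cast_nonneg _)
    refine le_trans (le_of_eq ?_) hbad
    congr 1
    · rw [hW]
      exact first_coll w y hw1 (fun d => |(d : ℝ)| < L₁) m
    · rw [sum_comm]
      apply sum_congr rfl
      intro g _
      rw [pow_coll, hW]
      apply sum_congr rfl
      intro f _
      by_cases h : ∀ i, (g : ℤ) ∣ y (f i).1 - y (f i).2
      · rw [if_pos h, if_pos h]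
      · rw [if_neg h, if_neg h]
  have h5 : 0 < τ ^ (m + 1) := by positivity
  rw [le_div_iff₀ h5]
  linarith

end Pool.Agent.V7H41.PX
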