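import Pool.Agent.V7H41.PX.PolyL
import Pool.Agent.R501.SP3

set_option autoImplicit false

/-! Divisor correlations for the shifts `X Y + Z`. -/

namespace Pool.Agent.V7H41.PX
open Finset Polynomial
open Pool.Agent.TH212.PL (cf)
open Pool.Agent.Results.MP_122e00_nt.SparseRandomShifts (Asymp)

/-- The spectral criterion of the starting file. -/
def Crit (r : ℕ) (P : ℕ → ℝ[X]) (T : ℤ → ℝ[X]) (θc : ℝ) (C : ℕ) : Prop := by
  classical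
  exact ∀ (B : ℕ) (η : ℝ), 0 < η → η ≤ 1 → ∃ N₀ : ℕ, ∀ N : ℕ, N₀ ≤ N →
      ∀ (ι : Type) [Fintype ι] (w : ι → ℝ) (v : ι → ℤ), (∀ i, 0 ≤ w i) → ∑ i, w i = 1 → (∀ i, |v i| ≤ B * N) →
      ∀ ρ : ℝ, (N : ℝ) ^ (-θc) ≤ ρ → ρ ≤ 1 → Pool.Agent.Results.MP_122e00_nt.SparseRandomShifts.FewLarge w v N ρ ((N : ℝ) ^ θc) →
      ∑ i ∈ univ.filter (fun i : ι => v i ≠ 0 ∧ ¬ Asymp r N P T (ρ ^ (1 / 8 : ℝ) * N * Real.log N ^ C) η (v i)), w i ≤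
        ρ ^ (1 / 2 : ℝ) * Real.log N ^ C

lemma asymp_mono (r N : ℕ) (P : ℕ → ℝ[X]) (T : ℤ → ℝ[X]) (E E' η : ℝ) (h : ℤ) (hE : E ≤ E') (ha : Asymp r N P T E η h) :
    Asymp r N P T E' η h := by
  intro x hx
  obtain ⟨h1, h2⟩ := ha x hx
  exact ⟨h1.trans hE, fun hh => (h2 hh).trans (by linarith)⟩

lemma log_large (c : ℝ) : ∃ N₀ : ℕ, ∀ N : ℕ, N₀ ≤ N → c ≤ Real.log N := by
  have h := (Real.tendsto_log_atTop.comp tendsto_natCast_atTop_atTop).eventually_ge_atTop c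
  obtain ⟨m, hm⟩ := Filter.eventually_atTop.1 h
  exact ⟨m, fun M hM => hm M hM⟩

lemma prod_law {ι κ : Type} [Fintype ι] [Fintype κ] (u : ι → ℝ) (w : κ → ℝ) (hu1 : ∑ i, u i = 1) (hw1 : ∑ k, w k = 1) :
    ∑ q : ι × κ, u q.1 * w q.2 = 1 := by
  rw [Fintype.sum_prod_type, ← sum_mul_sum, hu1, hw1, one_mul]

open Classical in
theorem gen (r : ℕ) (P : ℕ → ℝ[X]) (T : ℤ → ℝ[X]) (θc : ℝ) (C : ℕ) (hθc : 0 < θc) (hcrit : Crit r P T θc C) (σ δ : ℝ)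
    (hσ : 0 < σ) (hδ : 0 < δ) : ∃ θ : ℝ, 0 < θ ∧ ∀ (B₁ : ℕ) (η : ℝ), 0 < η → η ≤ 1 → ∃ N₀ : ℕ, ∀ N : ℕ, N₀ ≤ N → ∀ A B : ℕ,
      (N : ℝ) ^ δ ≤ B → (B : ℝ) ≤ A * (N : ℝ) ^ θ → (N : ℝ) ^ (1 - θ) ≤ A * B →
      ∀ (ι κ : Type) [Fintype ι] [Fintype κ] (u : ι → ℝ) (x : ι → ℤ) (w : κ → ℝ) (y z : κ → ℤ), (∀ i, 0 ≤ u i) → ∑ i, u i = 1 →
        (∀ k, 0 ≤ w k) → ∑ k, w k = 1 → (∀ i k, |x i * y k + z k| ≤ B₁ * N) → ∀ ρ : ℝ, (N : ℝ) ^ (-θ) ≤ ρ → ρ ≤ 1 / 2 →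
        FewLarge u x A ρ ((N : ℝ) ^ θ) → Spread w y B ((N : ℝ) ^ θ) σ →
        ∑ q ∈ univ.filter (fun q : ι × κ => x q.1 * y q.2 + z q.2 ≠ 0 ∧
          ¬ Asymp r N P T (ρ ^ (1 / 8 : ℝ) * N * Real.log N ^ (C + 1)) η (x q.1 * y q.2 + z q.2)), u q.1 * w q.2 ≤
          ρ ^ (1 / 2 : ℝ) * Real.log N ^ (C + 1) := by
  obtain ⟨θ₀, hθ₀, h1⟩ := few_param σ δ θc hσ hδ hθc
  obtain ⟨θ, hθ⟩ : ∃ θ : ℝ, θ = min θ₀ θc := ⟨_, rfl⟩
  have hθ0 : 0 < θ := by rw [hθ]; exact lt_min hθ₀ hθc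
  obtain ⟨N₁, h2⟩ := h1 θ hθ0 (by rw [hθ]; exact min_le_left _ _)
  refine ⟨θ, hθ0, fun B₁ η hη hη1 => ?_⟩
  obtain ⟨N₂, h3⟩ := hcrit B₁ η hη hη1
  obtain ⟨N₃, h4⟩ := log_large 2
  refine ⟨N₁ + N₂ + N₃ + 1, fun N hN A B hB hBA hAB ι κ _ _ u x w y z hu hu1 hw hw1 hb ρ hρN hρ1 hX hY => ?_⟩
  have hN1 : (1 : ℝ) ≤ N := by exact_mod_cast (by omega : 1 ≤ N)
  have hN0 : (0 : ℝ) < N := by linarith
  have hlog := h4 N (by omega)
  have hρ0 : 0 < ρ := lt_of_lt_of_le (by positivity) hρN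
  have hfew := h2 N (by omega) A B hB hBA hAB ι κ u x w y z hu hu1 hw hw1 ρ hρN hX hY
  have hθc' : (N : ℝ) ^ (-θc) ≤ 2 * ρ := by
    have : (N : ℝ) ^ (-θc) ≤ (N : ℝ) ^ (-θ) := by
      apply Real.rpow_le_rpow_of_exponent_le hN1
      rw [hθ]
      exact neg_le_neg (min_le_right _ _)
    linarith
  have key := h3 N (by omega) (ι × κ) (fun q => u q.1 * w q.2) (fun q => x q.1 * y q.2 + z q.2)
    (fun q => mul_nonneg (hu _) (hw _)) (prod_law u w hu1 hw1) (fun q => hb q.1 q.2) (2 * ρ) hθc' (by linarith) hfew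
  have e1 : (2 * ρ) ^ (1 / 8 : ℝ) ≤ ρ ^ (1 / 8 : ℝ) * Real.log N := by
    rw [Real.mul_rpow (by norm_num) hρ0.le, mul_comm]
    apply mul_le_mul_of_nonneg_left _ (by positivity)
    calc (2 : ℝ) ^ (1 / 8 : ℝ) ≤ (2 : ℝ) ^ (1 : ℝ) := Real.rpow_le_rpow_of_exponent_le (by norm_num) (by norm_num)
      _ = 2 := Real.rpow_one _
      _ ≤ _ := hlog
  have e2 : (2 * ρ) ^ (1 / 2 : ℝ) ≤ ρ ^ (1 / 2 : ℝ) * Real.log N := by
    rw [Real.mul_rpow (by norm_num) hρ0.le, mul_comm]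
    apply mul_le_mul_of_nonneg_left _ (by positivity)
    calc (2 : ℝ) ^ (1 / 2 : ℝ) ≤ (2 : ℝ) ^ (1 : ℝ) := Real.rpow_le_rpow_of_exponent_le (by norm_num) (by norm_num)
      _ = 2 := Real.rpow_one _
      _ ≤ _ := hlog
  have hl0 : 0 ≤ Real.log N ^ C := by
    have : 0 ≤ Real.log (N : ℝ) := by linarith
    positivity
  calc ∑ q ∈ univ.filter (fun q : ι × κ => x q.1 * y q.2 + z q.2 ≠ 0 ∧
          ¬ Asymp r N P T (ρ ^ (1 / 8 : ℝ) * N * Real.log N ^ (C + 1)) η (x q.1 * y q.2 + z q.2)), u q.1 * w q.2 ≤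
      ∑ q ∈ univ.filter (fun q : ι × κ => x q.1 * y q.2 + z q.2 ≠ 0 ∧
          ¬ Asymp r N P T ((2 * ρ) ^ (1 / 8 : ℝ) * N * Real.log N ^ C) η (x q.1 * y q.2 + z q.2)), u q.1 * w q.2 := by
        apply sum_le_sum_of_subset_of_nonneg
        · intro q hq
          rw [mem_filter] at hq ⊢
          refine ⟨mem_univ _, hq.2.1, fun ha => hq.2.2 (asymp_mono _ _ _ _ _ _ _ _ ?_ ha)⟩
          calc (2 * ρ) ^ (1 / 8 : ℝ) * N * Real.log N ^ C ≤ (ρ ^ (1 / 8 : ℝ) * Real.log N) * N * Real.log N ^ C :=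
                mul_le_mul_of_nonneg_right (mul_le_mul_of_nonneg_right e1 hN0.le) hl0
            _ = _ := by ring
        · intro q _ _
          exact mul_nonneg (hu _) (hw _)
    _ ≤ (2 * ρ) ^ (1 / 2 : ℝ) * Real.log N ^ C := key
    _ ≤ (ρ ^ (1 / 2 : ℝ) * Real.log N) * Real.log N ^ C := mul_le_mul_of_nonneg_right e2 hl0
    _ = _ := by ring

open Classical in
theorem poly (r : ℕ) (P : ℕ → ℝ[X]) (T : ℤ → ℝ[X]) (θc : ℝ) (C : ℕ) (hθc : 0 < θc) (hcrit : Crit r P T θc C) (f₁ f₂ : ℤ[X])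
    (hd₁ : 1 ≤ f₁.natDegree) (hd₂ : 1 ≤ f₂.natDegree) (δ : ℝ) (hδ : 0 < δ) : ∃ θ : ℝ, 0 < θ ∧ ∀ (B₁ : ℕ) (η : ℝ), 0 < η → η ≤ 1 →
      ∃ N₀ : ℕ, ∀ N : ℕ, N₀ ≤ N → ∀ x y : ℕ, (N : ℝ) ^ δ ≤ (y : ℝ) ^ f₂.natDegree →
      (y : ℝ) ^ f₂.natDegree ≤ (x : ℝ) ^ f₁.natDegree * (N : ℝ) ^ θ →
      (N : ℝ) ^ (1 - θ) ≤ (x : ℝ) ^ f₁.natDegree * (y : ℝ) ^ f₂.natDegree → x ^ f₁.natDegree * y ^ f₂.natDegree ≤ N →
      ∀ X ⊆ Icc 1 x, ∀ Y ⊆ Icc 1 y, (x : ℝ) * (N : ℝ) ^ (-θ) ≤ X.card → (y : ℝ) * (N : ℝ) ^ (-θ) ≤ Y.card →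
      ∀ z : ℕ → ℤ, (∀ m ∈ Y, |z m| ≤ B₁ * N) →
        (((X ×ˢ Y).filter fun q : ℕ × ℕ => ∃ h : ℤ,
          |((h - (f₁.eval (q.1 : ℤ) * f₂.eval (q.2 : ℤ) + z q.2) : ℤ) : ℝ)| ≤ (N : ℝ) ^ θ ∧ h ≠ 0 ∧
          ¬ Asymp r N P T ((N : ℝ) ^ (1 - θ)) η h).card : ℝ) ≤ (N : ℝ) ^ (-θ) * (X.card * Y.card) := by
  obtain ⟨d₁, hdd₁⟩ : ∃ d, d = f₁.natDegree := ⟨_, rfl⟩
  obtain ⟨d₂, hdd₂⟩ : ∃ d, d = f₂.natDegree := ⟨_, rfl⟩
  obtain ⟨p, C₁, hC₁, hfp⟩ := few_poly f₁ hd₁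
  obtain ⟨C₂, hC₂, hsp⟩ := spread_poly f₂ hd₂
  rw [← hdd₁] at hfp
  rw [← hdd₂] at hsp
  rw [← hdd₁, ← hdd₂]
  obtain ⟨σ, hσ⟩ : ∃ σ : ℝ, σ = 1 / (((d₂ + 1) * d₂ : ℕ) : ℝ) := ⟨_, rfl⟩
  have hσ0 : 0 < σ := by
    rw [hσ]
    have : 0 < (d₂ + 1) * d₂ := Nat.mul_pos (by omega) (by omega)
    have : (0 : ℝ) < (((d₂ + 1) * d₂ : ℕ) : ℝ) := by exact_mod_cast this
    positivity
  rw [← hσ] at hsp
  obtain ⟨θ₀, hθ₀, hpar⟩ := few_param σ δ θc hσ0 hδ hθc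
  obtain ⟨θs, hθs⟩ : ∃ θs : ℝ, θs = min (min θ₀ θc) 1 := ⟨_, rfl⟩
  have hθs0 : 0 < θs := by rw [hθs]; exact lt_min (lt_min hθ₀ hθc) one_pos
  have hθsc : θs ≤ θc := by rw [hθs]; exact (min_le_left _ _).trans (min_le_right _ _)
  have hθs1 : θs ≤ 1 := by rw [hθs]; exact min_le_right _ _
  have hp0 : (0 : ℝ) ≤ p := Nat.cast_nonneg p
  obtain ⟨θr, hθr⟩ : ∃ θr : ℝ, θr = θs / (8 * p + 8) := ⟨_, rfl⟩
  have hθr0 : 0 < θr := by rw [hθr]; positivity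
  have hθrs : 8 * p * θr + 8 * θr = θs := by
    rw [hθr]
    field_simp
  have hpθ : 0 ≤ (p : ℝ) * θr := by positivity
  obtain ⟨N₁, hN₁⟩ := hpar θs hθs0 (by rw [hθs]; exact (min_le_left _ _).trans (min_le_left _ _))
  obtain ⟨θ₃, hθ₃⟩ : ∃ θ₃ : ℝ, θ₃ = θr / 2 := ⟨_, rfl⟩
  have hθ₃0 : 0 < θ₃ := by rw [hθ₃]; positivity
  obtain ⟨θ, hθ⟩ : ∃ θ : ℝ, θ = θ₃ / 64 := ⟨_, rfl⟩
  have hθ0 : 0 < θ := by rw [hθ]; positivity
  refine ⟨θ, hθ0, fun B₁ η hη hη1 => ?_⟩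
  obtain ⟨B₂, hB₂⟩ : ∃ B₂ : ℕ, B₂ = cf f₁ * cf f₂ + (B₁ + 1) := ⟨_, rfl⟩
  obtain ⟨N₂, hN₂⟩ := Pool.Agent.R501.SP.crit_pow r P T θc C (by
    intro B η hη hη1
    obtain ⟨N₀, h⟩ := hcrit B η hη hη1
    exact ⟨N₀, h⟩) θ₃ hθ₃0 (by linarith) B₂ η hη hη1
  obtain ⟨N₃, hN₃⟩ := pow_large (θs / 2) C₁ (by positivity)
  obtain ⟨N₄, hN₄⟩ := pow_large (θs / 2) C₂ (by positivity)
  obtain ⟨N₅, hN₅⟩ := pow_large (θs / 2) (cf f₂) (by positivity)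
  obtain ⟨N₆, hN₆⟩ := pow_large θ 3 hθ0
  refine ⟨N₁ + N₂ + N₃ + N₄ + N₅ + N₆ + 1, fun N hN x y hy hyx hxy hxyN X hX Y hY hXc hYc z hz => ?_⟩
  have hN1 : (1 : ℝ) ≤ N := by exact_mod_cast (by omega : 1 ≤ N)
  have hN0 : (0 : ℝ) < N := by linarith
  have pw : ∀ a b : ℝ, (N : ℝ) ^ a * (N : ℝ) ^ b = (N : ℝ) ^ (a + b) := fun a b => (Real.rpow_add hN0 a b).symm
  have pm : ∀ a b : ℝ, a ≤ b → (N : ℝ) ^ a ≤ (N : ℝ) ^ b := fun a b h => Real.rpow_le_rpow_of_exponent_le hN1 h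
  have p0 : ∀ a : ℝ, 0 < (N : ℝ) ^ a := fun a => Real.rpow_pos_of_pos hN0 a
  have h3N := hN₆ N (by omega)
  -- positivity
  have hyp : (0 : ℝ) < (y : ℝ) ^ d₂ := lt_of_lt_of_le (p0 _) hy
  have hy1 : 1 ≤ y := by
    by_contra h
    have : y = 0 := by omega
    rw [this, Nat.cast_zero, zero_pow (by omega)] at hyp
    linarith
  have hxp : (0 : ℝ) < (x : ℝ) ^ d₁ := by
    by_contra h
    have h0 : (x : ℝ) ^ d₁ = 0 := le_antisymm (not_lt.1 h) (by positivity)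
    rw [h0, zero_mul] at hyx
    linarith
  have hx1 : 1 ≤ x := by
    by_contra h
    have : x = 0 := by omega
    rw [this, Nat.cast_zero, zero_pow (by omega)] at hxp
    linarith
  have hxr : (1 : ℝ) ≤ x := by exact_mod_cast hx1
  have hyr : (1 : ℝ) ≤ y := by exact_mod_cast hy1
  have hXc0 : (0 : ℝ) < X.card := lt_of_lt_of_le (mul_pos (by linarith) (p0 _)) hXc
  have hYc0 : (0 : ℝ) < Y.card := lt_of_lt_of_le (mul_pos (by linarith) (p0 _)) hYc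
  have hXn : X.Nonempty := by rw [← card_pos]; exact_mod_cast hXc0
  have hYn : Y.Nonempty := by rw [← card_pos]; exact_mod_cast hYc0
  have hXd : (x : ℝ) / X.card ≤ (N : ℝ) ^ θ := by
    rw [div_le_iff₀ hXc0]
    have h1 := mul_le_mul_of_nonneg_left hXc (p0 θ).le
    have h2 : (N : ℝ) ^ θ * ((x : ℝ) * (N : ℝ) ^ (-θ)) = x := by
      have : (N : ℝ) ^ θ * (N : ℝ) ^ (-θ) = 1 := by rw [pw, add_neg_cancel, Real.rpow_zero]
      calc (N : ℝ) ^ θ * ((x : ℝ) * (N : ℝ) ^ (-θ)) = x * ((N : ℝ) ^ θ * (N : ℝ) ^ (-θ)) := by ring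
        _ = x := by rw [this, mul_one]
    linarith
  have hYd : (y : ℝ) / Y.card ≤ (N : ℝ) ^ θ := by
    rw [div_le_iff₀ hYc0]
    have h1 := mul_le_mul_of_nonneg_left hYc (p0 θ).le
    have h2 : (N : ℝ) ^ θ * ((y : ℝ) * (N : ℝ) ^ (-θ)) = y := by
      have : (N : ℝ) ^ θ * (N : ℝ) ^ (-θ) = 1 := by rw [pw, add_neg_cancel, Real.rpow_zero]
      calc (N : ℝ) ^ θ * ((y : ℝ) * (N : ℝ) ^ (-θ)) = y * ((N : ℝ) ^ θ * (N : ℝ) ^ (-θ)) := by ring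
        _ = y := by rw [this, mul_one]
    linarith
  have hcf1 := cf_pos f₁ hd₁
  have hcf2 := cf_pos f₂ hd₂
  have hcf2r : (1 : ℝ) ≤ cf f₂ := by exact_mod_cast hcf2
  -- the laws
  have hfew1 : FewLarge (fun _ : {m // m ∈ X} => 1 / (X.card : ℝ)) (fun m => f₁.eval ((m.1 : ℕ) : ℤ)) (x ^ d₁) ((N : ℝ) ^ (-θr))
      ((N : ℝ) ^ θs) := by
    intro S hS hsep
    refine (hfp x X hx1 hXn hX ((N : ℝ) ^ (-θr)) (p0 _) ?_ S hS hsep).trans ?_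
    · rw [Real.rpow_neg hN0.le]
      exact inv_le_one_of_one_le₀ (Real.one_le_rpow hN1 hθr0.le)
    · have h1 : ((x : ℝ) / X.card) / (N : ℝ) ^ (-θr) ≤ (N : ℝ) ^ (θ + θr) := by
        rw [Real.rpow_neg hN0.le, div_inv_eq_mul, ← pw]
        exact mul_le_mul_of_nonneg_right hXd (p0 _).le
      calc C₁ * (((x : ℝ) / X.card) / (N : ℝ) ^ (-θr)) ^ (2 * p) ≤ (N : ℝ) ^ (θs / 2) * ((N : ℝ) ^ (θ + θr)) ^ (2 * p) := by
            apply mul_le_mul (hN₃ N (by omega)) _ (by positivity) (p0 _).le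
            exact pow_le_pow_left₀ (by positivity) h1 _
        _ = (N : ℝ) ^ (θs / 2 + (θ + θr) * (2 * p)) := by
            rw [← Real.rpow_natCast, ← Real.rpow_mul hN0.le, pw]
            congr 2
            push_cast
            ring
        _ ≤ _ := by
            apply pm
            have h2 : θ = θr / 128 := by rw [hθ, hθ₃]; ring
            rw [h2]
            have h3 : (θr / 128 + θr) * (2 * (p : ℝ)) = (129 / 64) * (p * θr) := by ring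
            rw [h3]
            linarith
  have hspr : Spread (fun _ : {m // m ∈ Y} => 1 / (Y.card : ℝ)) (fun m => f₂.eval ((m.1 : ℕ) : ℤ)) (cf f₂ * y ^ d₂) ((N : ℝ) ^ θs) σ := by
    have h1 := hsp y Y hy1 hYn hY
    have h2 : C₂ * (y / Y.card) ≤ (N : ℝ) ^ θs := by
      calc C₂ * (y / Y.card) ≤ (N : ℝ) ^ (θs / 2) * (N : ℝ) ^ θ := mul_le_mul (hN₄ N (by omega)) hYd (by positivity) (p0 _).le
        _ = (N : ℝ) ^ (θs / 2 + θ) := pw _ _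
        _ ≤ _ := by
          apply pm
          have : θ = θr / 128 := by rw [hθ, hθ₃]; ring
          rw [this]
          linarith
    exact ⟨h1.size, fun g hg1 hg2 => (h1.residue g hg1 hg2).trans (mul_le_mul_of_nonneg_right h2 (by positivity)),
      fun t ht1 ht2 => (h1.interval t ht1 ht2).trans (mul_le_mul_of_nonneg_right h2 (by have : 0 < t := by linarith
                                                                                        positivity))⟩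
  have hone : ∀ s : ℤ, |(s : ℝ)| ≤ (N : ℝ) ^ θ → (((X ×ˢ Y).filter fun q : ℕ × ℕ =>
      f₁.eval (q.1 : ℤ) * f₂.eval (q.2 : ℤ) + (z q.2 + s) ≠ 0 ∧
      ¬ Asymp r N P T ((N : ℝ) ^ (1 - θ₃ / 16)) η (f₁.eval (q.1 : ℤ) * f₂.eval (q.2 : ℤ) + (z q.2 + s))).card : ℝ) ≤
      (N : ℝ) ^ (-(θ₃ / 16)) * (X.card * Y.card) := by
    intro s hs
    have hfew := hN₁ N (by omega) (x ^ d₁) (cf f₂ * y ^ d₂)
      (by
        push_cast
        calc (N : ℝ) ^ δ ≤ 1 * (y : ℝ) ^ d₂ := by rw [one_mul]; exact hy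
          _ ≤ _ := mul_le_mul_of_nonneg_right hcf2r hyp.le)
      (by
        push_cast
        calc (cf f₂ : ℝ) * (y : ℝ) ^ d₂ ≤ (N : ℝ) ^ (θs / 2) * ((x : ℝ) ^ d₁ * (N : ℝ) ^ θ) :=
              mul_le_mul (hN₅ N (by omega)) hyx hyp.le (p0 _).le
          _ = (x : ℝ) ^ d₁ * ((N : ℝ) ^ (θs / 2) * (N : ℝ) ^ θ) := by ring
          _ ≤ _ := by
            apply mul_le_mul_of_nonneg_left _ hxp.le
            rw [pw]
            apply pm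
            have : θ = θr / 128 := by rw [hθ, hθ₃]; ring
            rw [this]
            linarith)
      (by
        push_cast
        calc (N : ℝ) ^ (1 - θs) ≤ (N : ℝ) ^ (1 - θ) := by
              apply pm
              have : θ = θr / 128 := by rw [hθ, hθ₃]; ring
              rw [this]
              linarith
          _ ≤ (x : ℝ) ^ d₁ * (1 * (y : ℝ) ^ d₂) := by rw [one_mul]; exact hxy
          _ ≤ _ := by
            apply mul_le_mul_of_nonneg_left _ hxp.le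
            exact mul_le_mul_of_nonneg_right hcf2r hyp.le)
      {m // m ∈ X} {m // m ∈ Y} (fun _ => 1 / (X.card : ℝ)) (fun m => f₁.eval ((m.1 : ℕ) : ℤ)) (fun _ => 1 / (Y.card : ℝ))
      (fun m => f₂.eval ((m.1 : ℕ) : ℤ)) (fun m => z m.1 + s) (fun _ => by positivity)
      (by rw [sum_const, card_univ, Fintype.card_coe, nsmul_eq_mul, mul_one_div, div_self hXc0.ne'])
      (fun _ => by positivity)
      (by rw [sum_const, card_univ, Fintype.card_coe, nsmul_eq_mul, mul_one_div, div_self hYc0.ne'])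
      ((N : ℝ) ^ (-θr)) (pm _ _ (by linarith)) hfew1 hspr
    have hfew' : Pool.Agent.Results.MP_122e00_nt.SparseRandomShifts.FewLarge
        (fun q : {m // m ∈ X} × {m // m ∈ Y} => (1 / (X.card : ℝ)) * (1 / (Y.card : ℝ)))
        (fun q => f₁.eval ((q.1.1 : ℕ) : ℤ) * f₂.eval ((q.2.1 : ℕ) : ℤ) + (z q.2.1 + s)) N (2 * (N : ℝ) ^ (-θr)) ((N : ℝ) ^ θc) := hfew
    have hfew'' := Pool.Agent.R501.SP.few_mono _ _ N (2 * (N : ℝ) ^ (-θr)) ((N : ℝ) ^ (-θ₃)) _ (by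
      have h1 : (N : ℝ) ^ (-θ₃) = (N : ℝ) ^ θ₃ * (N : ℝ) ^ (-θr) := by
        rw [pw]
        congr 1
        rw [hθ₃]
        ring
      rw [h1]
      apply mul_le_mul_of_nonneg_right _ (p0 _).le
      have h2 : (N : ℝ) ^ θ ≤ (N : ℝ) ^ θ₃ := pm _ _ (by rw [hθ]; linarith)
      linarith) hfew'
    have key := hN₂ N (by omega) ({m // m ∈ X} × {m // m ∈ Y}) (fun q => (1 / (X.card : ℝ)) * (1 / (Y.card : ℝ)))
      (fun q => f₁.eval ((q.1.1 : ℕ) : ℤ) * f₂.eval ((q.2.1 : ℕ) : ℤ) + (z q.2.1 + s)) (fun q => by positivity)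
      (by
        have := prod_law (fun _ : {m // m ∈ X} => 1 / (X.card : ℝ)) (fun _ : {m // m ∈ Y} => 1 / (Y.card : ℝ))
          (by rw [sum_const, card_univ, Fintype.card_coe, nsmul_eq_mul, mul_one_div, div_self hXc0.ne'])
          (by rw [sum_const, card_univ, Fintype.card_coe, nsmul_eq_mul, mul_one_div, div_self hYc0.ne'])
        exact this)
      (by
        intro q
        have a1 := hX q.1.2
        have a2 := hY q.2.2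
        rw [mem_Icc] at a1 a2
        have b1 := Pool.Agent.TH212.PL.abs_eval_le f₁ q.1.1 a1.1
        have b2 := Pool.Agent.TH212.PL.abs_eval_le f₂ q.2.1 a2.1
        rw [← hdd₁] at b1
        rw [← hdd₂] at b2
        have c1 : ((q.1.1 : ℕ) : ℤ) ^ d₁ ≤ (x : ℤ) ^ d₁ := by exact_mod_cast Nat.pow_le_pow_left a1.2 d₁
        have c2 : ((q.2.1 : ℕ) : ℤ) ^ d₂ ≤ (y : ℤ) ^ d₂ := by exact_mod_cast Nat.pow_le_pow_left a2.2 d₂
        have c3 : |f₁.eval ((q.1.1 : ℕ) : ℤ)| ≤ (cf f₁ : ℤ) * (x : ℤ) ^ d₁ :=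
          b1.trans (mul_le_mul_of_nonneg_left c1 (by positivity))
        have c4 : |f₂.eval ((q.2.1 : ℕ) : ℤ)| ≤ (cf f₂ : ℤ) * (y : ℤ) ^ d₂ :=
          b2.trans (mul_le_mul_of_nonneg_left c2 (by positivity))
        have c5 : |f₁.eval ((q.1.1 : ℕ) : ℤ) * f₂.eval ((q.2.1 : ℕ) : ℤ)| ≤ (cf f₁ : ℤ) * cf f₂ * N := by
          rw [abs_mul]
          calc |f₁.eval ((q.1.1 : ℕ) : ℤ)| * |f₂.eval ((q.2.1 : ℕ) : ℤ)| ≤ ((cf f₁ : ℤ) * (x : ℤ) ^ d₁) * ((cf f₂ : ℤ) * (y : ℤ) ^ d₂) :=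
                mul_le_mul c3 c4 (abs_nonneg _) (by positivity)
            _ = (cf f₁ : ℤ) * cf f₂ * ((x : ℤ) ^ d₁ * (y : ℤ) ^ d₂) := by ring
            _ ≤ _ := by
              apply mul_le_mul_of_nonneg_left _ (by positivity)
              exact_mod_cast hxyN
        have c6 : |z q.2.1| ≤ B₁ * N := hz _ q.2.2
        have c7 : |s| ≤ N := by
          have h1 : |(s : ℝ)| ≤ N := by
            refine hs.trans ?_
            calc (N : ℝ) ^ θ ≤ (N : ℝ) ^ (1 : ℝ) := by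
                  apply pm
                  have : θ = θr / 128 := by rw [hθ, hθ₃]; ring
                  rw [this]
                  linarith
              _ = N := Real.rpow_one _
          exact_mod_cast h1
        have c8 : |f₁.eval ((q.1.1 : ℕ) : ℤ) * f₂.eval ((q.2.1 : ℕ) : ℤ) + (z q.2.1 + s)| ≤
            |f₁.eval ((q.1.1 : ℕ) : ℤ) * f₂.eval ((q.2.1 : ℕ) : ℤ)| + (|z q.2.1| + |s|) :=
          (abs_add_le _ _).trans (add_le_add le_rfl (abs_add_le _ _))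
        refine c8.trans ?_
        rw [hB₂]
        push_cast
        have c9 : ((cf f₁ : ℤ) * cf f₂ + (B₁ + 1)) * N = (cf f₁ : ℤ) * cf f₂ * N + (B₁ * N + N) := by ring
        rw [c9]
        exact add_le_add c5 (add_le_add c6 c7)) hfew''
    -- translate
    rw [sum_filter, Fintype.sum_prod_type] at key
    have e1 : ∀ (F : ℕ → ℕ → ℝ), ∑ m : {m // m ∈ X}, ∑ k : {k // k ∈ Y}, F m.1 k.1 = ∑ q ∈ X ×ˢ Y, F q.1 q.2 := by
      intro F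
      rw [sum_product, ← Finset.sum_coe_sort X (fun m => ∑ k ∈ Y, F m k)]
      apply sum_congr rfl
      intro m _
      exact Finset.sum_coe_sort Y (fun k => F m.1 k)
    have e2 := e1 (fun m k => if f₁.eval (m : ℤ) * f₂.eval (k : ℤ) + (z k + s) ≠ 0 ∧
      ¬ Asymp r N P T ((N : ℝ) ^ (1 - θ₃ / 16)) η (f₁.eval (m : ℤ) * f₂.eval (k : ℤ) + (z k + s)) then
        1 / (X.card : ℝ) * (1 / (Y.card : ℝ)) else 0)
    have e3 : ∑ q ∈ X ×ˢ Y, (if f₁.eval (q.1 : ℤ) * f₂.eval (q.2 : ℤ) + (z q.2 + s) ≠ 0 ∧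
      ¬ Asymp r N P T ((N : ℝ) ^ (1 - θ₃ / 16)) η (f₁.eval (q.1 : ℤ) * f₂.eval (q.2 : ℤ) + (z q.2 + s)) then
        1 / (X.card : ℝ) * (1 / (Y.card : ℝ)) else 0) ≤ (N : ℝ) ^ (-(θ₃ / 16)) := by
      rw [← e2]
      exact key
    rw [← sum_filter, sum_const, nsmul_eq_mul] at e3
    have e4 : ∀ a : ℝ, a * (1 / (X.card : ℝ) * (1 / (Y.card : ℝ))) = a / (X.card * Y.card) := by
      intro a
      field_simp
    rw [e4, div_le_iff₀ (by positivity)] at e3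
    exact e3
  -- the union of the shifts
  obtain ⟨W, hW⟩ : ∃ W : ℕ, W = ⌊(N : ℝ) ^ θ⌋₊ := ⟨_, rfl⟩
  have hWr : (W : ℝ) ≤ (N : ℝ) ^ θ := by rw [hW]; exact Nat.floor_le (by positivity)
  have hsub : ((X ×ˢ Y).filter fun q : ℕ × ℕ => ∃ h : ℤ,
      |((h - (f₁.eval (q.1 : ℤ) * f₂.eval (q.2 : ℤ) + z q.2) : ℤ) : ℝ)| ≤ (N : ℝ) ^ θ ∧ h ≠ 0 ∧
      ¬ Asymp r N P T ((N : ℝ) ^ (1 - θ)) η h) ⊆ (Icc (-(W : ℤ)) W).biUnion (fun s => (X ×ˢ Y).filter fun q : ℕ × ℕ =>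
      f₁.eval (q.1 : ℤ) * f₂.eval (q.2 : ℤ) + (z q.2 + s) ≠ 0 ∧
      ¬ Asymp r N P T ((N : ℝ) ^ (1 - θ₃ / 16)) η (f₁.eval (q.1 : ℤ) * f₂.eval (q.2 : ℤ) + (z q.2 + s))) := by
    intro q hq
    rw [mem_filter] at hq
    obtain ⟨hq1, h, hh1, hh2, hh3⟩ := hq
    rw [mem_biUnion]
    obtain ⟨s, hs⟩ : ∃ s : ℤ, s = h - (f₁.eval (q.1 : ℤ) * f₂.eval (q.2 : ℤ) + z q.2) := ⟨_, rfl⟩
    rw [← hs] at hh1
    have hh : f₁.eval (q.1 : ℤ) * f₂.eval (q.2 : ℤ) + (z q.2 + s) = h := by rw [hs]; ring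
    refine ⟨s, ?_, ?_⟩
    · rw [mem_Icc, ← abs_le]
      have e1 : ((s.natAbs : ℕ) : ℝ) ≤ (N : ℝ) ^ θ := by
        rw [Nat.cast_natAbs]
        push_cast
        exact hh1
      have e2 : s.natAbs ≤ W := by rw [hW]; exact Nat.le_floor e1
      rw [Int.abs_eq_natAbs]
      exact_mod_cast e2
    · rw [mem_filter, hh]
      refine ⟨hq1, hh2, fun ha => hh3 (asymp_mono _ _ _ _ _ _ _ _ ?_ ha)⟩
      apply pm
      rw [hθ]
      linarith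
  have hcard := (card_le_card hsub).trans card_biUnion_le
  have hcardr : (((X ×ˢ Y).filter fun q : ℕ × ℕ => ∃ h : ℤ,
      |((h - (f₁.eval (q.1 : ℤ) * f₂.eval (q.2 : ℤ) + z q.2) : ℤ) : ℝ)| ≤ (N : ℝ) ^ θ ∧ h ≠ 0 ∧
      ¬ Asymp r N P T ((N : ℝ) ^ (1 - θ)) η h).card : ℝ) ≤ ∑ s ∈ Icc (-(W : ℤ)) W, (((X ×ˢ Y).filter fun q : ℕ × ℕ =>
      f₁.eval (q.1 : ℤ) * f₂.eval (q.2 : ℤ) + (z q.2 + s) ≠ 0 ∧
      ¬ Asymp r N P T ((N : ℝ) ^ (1 - θ₃ / 16)) η (f₁.eval (q.1 : ℤ) * f₂.eval (q.2 : ℤ) + (z q.2 + s))).card : ℝ) := by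
    exact_mod_cast hcard
  refine hcardr.trans ((sum_le_card_nsmul _ _ _ (fun s hs => hone s ?_)).trans ?_)
  · rw [mem_Icc, ← abs_le] at hs
    have : |(s : ℝ)| ≤ W := by exact_mod_cast hs
    exact this.trans hWr
  · rw [Int.card_Icc, nsmul_eq_mul]
    have e1 : (((W : ℤ) + 1 - -(W : ℤ)).toNat : ℝ) ≤ 3 * (N : ℝ) ^ θ := by
      have h1 : ((W : ℤ) + 1 - -(W : ℤ)).toNat = 2 * W + 1 := by omega
      have h2 : (1 : ℝ) ≤ (N : ℝ) ^ θ := Real.one_le_rpow hN1 hθ0.le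
      rw [h1]
      push_cast
      linarith
    have hc0 : (0 : ℝ) ≤ X.card * Y.card := by positivity
    calc (((W : ℤ) + 1 - -(W : ℤ)).toNat : ℝ) * ((N : ℝ) ^ (-(θ₃ / 16)) * (X.card * Y.card)) ≤
        ((N : ℝ) ^ θ * (N : ℝ) ^ θ) * ((N : ℝ) ^ (-(θ₃ / 16)) * (X.card * Y.card)) := by
          apply mul_le_mul_of_nonneg_right _ (by positivity)
          exact e1.trans (mul_le_mul_of_nonneg_right h3N (by positivity))
      _ = (N : ℝ) ^ (θ + θ + -(θ₃ / 16)) * (X.card * Y.card) := by rw [← pw, ← pw]; ring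
      _ ≤ _ := by
          apply mul_le_mul_of_nonneg_right _ hc0
          apply pm
          rw [hθ]
          linarith

end Pool.Agent.V7H41.PX
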