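import Pool.Agent.V7H41.PX.Few

set_option autoImplicit false

/-! Choice of the parameters. -/

namespace Pool.Agent.V7H41.PX
open Finset

lemma pow_large (t c : ℝ) (ht : 0 < t) : ∃ N₀ : ℕ, ∀ N : ℕ, N₀ ≤ N → c ≤ (N : ℝ) ^ t := by
  have t1 := (tendsto_rpow_atTop ht).comp (tendsto_natCast_atTop_atTop (R := ℝ))
  obtain ⟨N3, h⟩ := Filter.eventually_atTop.1 (t1.eventually_ge_atTop c)
  exact ⟨N3, fun N hN => h N hN⟩

lemma coll_mono {κ : Type} [Fintype κ] (w : κ → ℝ) (y : κ → ℤ) (hw : ∀ k, 0 ≤ w k) (R R' : ℤ → Prop) (h : ∀ d, R d → R' d) :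
    coll w y R ≤ coll w y R' := by
  classical
  unfold coll
  apply sum_le_sum
  intro k _
  apply sum_le_sum
  intro l _
  by_cases h1 : R (y k - y l)
  · rw [if_pos h1, if_pos (h _ h1)]
  · rw [if_neg h1]
    split_ifs
    · exact mul_nonneg (hw k) (hw l)
    · exact le_rfl

/-- The law of `y` (of size at most `B`) is spread: the probability that two independent copies are congruent modulo `g`
is at most `E g ^ (-σ)`, and the probability that they are at a distance of at most `B / T` is at most `E T ^ (-σ)`. -/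
structure Spread {κ : Type} [Fintype κ] (w : κ → ℝ) (y : κ → ℤ) (B : ℕ) (E σ : ℝ) : Prop where
  size : ∀ k, |y k| ≤ B
  residue : ∀ g : ℕ, 1 ≤ g → g ≤ 2 * B → coll w y (fun d => (g : ℤ) ∣ d) ≤ E * (g : ℝ) ^ (-σ)
  interval : ∀ T : ℝ, 1 ≤ T → T ≤ B → coll w y (fun d => |(d : ℝ)| ≤ B / T) ≤ E * T ^ (-σ)

theorem few_param (σ δ θc : ℝ) (hσ : 0 < σ) (hδ : 0 < δ) (hθc : 0 < θc) : ∃ θ₀ : ℝ, 0 < θ₀ ∧ ∀ θ : ℝ, 0 < θ → θ ≤ θ₀ →
    ∃ N₀ : ℕ, ∀ N : ℕ, N₀ ≤ N → ∀ A B : ℕ, (N : ℝ) ^ δ ≤ B → (B : ℝ) ≤ A * (N : ℝ) ^ θ → (N : ℝ) ^ (1 - θ) ≤ A * B →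
      ∀ (ι κ : Type) [Fintype ι] [Fintype κ] (u : ι → ℝ) (x : ι → ℤ) (w : κ → ℝ) (y z : κ → ℤ), (∀ i, 0 ≤ u i) → ∑ i, u i = 1 →
        (∀ k, 0 ≤ w k) → ∑ k, w k = 1 → ∀ ρ : ℝ, (N : ℝ) ^ (-θ) ≤ ρ → FewLarge u x A ρ ((N : ℝ) ^ θ) → Spread w y B ((N : ℝ) ^ θ) σ →
        FewLarge (fun q : ι × κ => u q.1 * w q.2) (fun q => x q.1 * y q.2 + z q.2) N (2 * ρ) ((N : ℝ) ^ θc) := by
  obtain ⟨m, hm⟩ : ∃ m : ℕ, m = ⌈2 / σ⌉₊ := ⟨_, rfl⟩
  obtain ⟨n, hn⟩ : ∃ n : ℝ, n = (m : ℝ) + 1 := ⟨_, rfl⟩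
  have hn1 : 1 ≤ n := by
    rw [hn]
    have : (0 : ℝ) ≤ m := Nat.cast_nonneg m
    linarith
  have hnσ : 2 ≤ σ * n := by
    have h1 : 2 / σ ≤ m := by rw [hm]; exact Nat.le_ceil _
    have h2 : 2 / σ ≤ n := by rw [hn]; linarith
    rw [div_le_iff₀ hσ] at h2
    linarith
  obtain ⟨c, hc⟩ : ∃ c : ℝ, c = (11 * n + 6) + (4 * n + 2) / σ := ⟨_, rfl⟩
  have hc0 : 0 < c := by rw [hc]; positivity
  refine ⟨min (δ * σ / (4 * n + 2)) (θc / c), lt_min (by positivity) (by positivity), fun θ hθ hθ₀ => ?_⟩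
  have hθ1 : θ ≤ δ * σ / (4 * n + 2) := hθ₀.trans (min_le_left _ _)
  have hθ2 : θ ≤ θc / c := hθ₀.trans (min_le_right _ _)
  obtain ⟨t1, ht1⟩ : ∃ t1 : ℝ, t1 = (4 * n + 2) * θ / σ := ⟨_, rfl⟩
  have ht10 : 0 < t1 := by rw [ht1]; positivity
  have ht1δ : t1 ≤ δ := by
    rw [le_div_iff₀ (by positivity)] at hθ1
    rw [ht1, div_le_iff₀ hσ]
    linarith
  obtain ⟨t2, ht2⟩ : ∃ t2 : ℝ, t2 = (5 * n + 2) * θ := ⟨_, rfl⟩
  have ht20 : 0 < t2 := by rw [ht2]; positivity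
  have htot : c * θ ≤ θc := by
    rw [le_div_iff₀ hc0] at hθ2
    linarith
  obtain ⟨N₀, hN₀⟩ := pow_large θ 17 hθ
  refine ⟨N₀ + 1, fun N hN A B hB hBA hAB ι κ _ _ u x w y z hu hu1 hw hw1 ρ hρN hX hY => ?_⟩
  have h17 := hN₀ N (by omega)
  have hN1 : (1 : ℝ) ≤ N := by exact_mod_cast (by omega : 1 ≤ N)
  have hN0 : (0 : ℝ) < N := by linarith
  have hBpos : (0 : ℝ) < B := lt_of_lt_of_le (by positivity) hB
  have hApos : (0 : ℝ) < A := by
    by_contra h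
    have : (A : ℝ) = 0 := le_antisymm (not_lt.1 h) (Nat.cast_nonneg _)
    rw [this, zero_mul] at hBA
    linarith
  have hA1 : 1 ≤ A := by exact_mod_cast hApos
  have pw : ∀ a b : ℝ, (N : ℝ) ^ a * (N : ℝ) ^ b = (N : ℝ) ^ (a + b) := fun a b => (Real.rpow_add hN0 a b).symm
  have pm : ∀ a b : ℝ, a ≤ b → (N : ℝ) ^ a ≤ (N : ℝ) ^ b := fun a b h => Real.rpow_le_rpow_of_exponent_le hN1 h
  have p0 : ∀ a : ℝ, 0 < (N : ℝ) ^ a := fun a => Real.rpow_pos_of_pos hN0 a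
  obtain ⟨T, hT⟩ : ∃ T : ℝ, T = (N : ℝ) ^ t1 := ⟨_, rfl⟩
  have hT1 : 1 ≤ T := by rw [hT]; exact Real.one_le_rpow hN1 ht10.le
  have hTB : T ≤ B := by
    rw [hT]
    exact (pm _ _ ht1δ).trans hB
  have hT0 : 0 < T := by linarith
  obtain ⟨R, hR⟩ : ∃ R : ℕ, R = ⌊8 * (N : ℝ) ^ θ⌋₊ := ⟨_, rfl⟩
  have hR1 : (R : ℝ) ≤ 8 * (N : ℝ) ^ θ := by rw [hR]; exact Nat.floor_le (by positivity)
  have hR2 : 8 * (N : ℝ) ^ θ < R + 1 := by rw [hR]; exact Nat.lt_floor_add_one _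
  obtain ⟨G, hG⟩ : ∃ G : ℕ, G = ⌊(N : ℝ) ^ t2⌋₊ := ⟨_, rfl⟩
  have hG1 : (G : ℝ) ≤ (N : ℝ) ^ t2 := by rw [hG]; exact Nat.floor_le (by positivity)
  have hG2 : (N : ℝ) ^ t2 < G + 1 := by rw [hG]; exact Nat.lt_floor_add_one _
  have hNt2 : 1 ≤ (N : ℝ) ^ t2 := Real.one_le_rpow hN1 ht20.le
  have hGn : 1 ≤ G := by
    have : (0 : ℝ) < G := by linarith
    exact_mod_cast this
  have hGr : (1 : ℝ) ≤ G := by exact_mod_cast hGn
  have hG3 : (N : ℝ) ^ t2 / 2 ≤ G := by linarith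
  -- the powers of τ
  have hτ : ((N : ℝ) ^ (-θ) / (N : ℝ) ^ θ) ^ 2 = (N : ℝ) ^ (-(4 * θ)) := by
    rw [← Real.rpow_sub hN0, ← Real.rpow_natCast, ← Real.rpow_mul hN0.le]
    congr 1
    push_cast
    ring
  have hτn : (((N : ℝ) ^ (-θ) / (N : ℝ) ^ θ) ^ 2) ^ (m + 1) = (N : ℝ) ^ (-(4 * n * θ)) := by
    rw [hτ, ← Real.rpow_natCast, ← Real.rpow_mul hN0.le]
    congr 1
    rw [hn]
    push_cast
    ring
  have hρ0 : 0 < ρ := lt_of_lt_of_le (p0 _) hρN
  have hτρ : (N : ℝ) ^ (-(4 * n * θ)) ≤ ((ρ / (N : ℝ) ^ θ) ^ 2) ^ (m + 1) := by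
    rw [← hτn]
    apply pow_le_pow_left₀ (by positivity)
    apply pow_le_pow_left₀ (by have := p0 (-θ); positivity)
    exact div_le_div_of_nonneg_right hρN (p0 _).le
  have key := few_count u x hu hu1 w y z hw hw1 A hA1 ρ ((N : ℝ) ^ θ) hρ0 (p0 _) hX N (2 * B) R G m (B / T)
    (by omega) (by positivity)
    (by
      intro k l
      have h1 := hY.size k
      have h2 := hY.size l
      rw [abs_le] at h1 h2 ⊢
      push_cast
      constructor <;> omega)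
    (by
      push_cast
      have h1 : (B : ℝ) / A ≤ (N : ℝ) ^ θ := by rw [div_le_iff₀ hApos]; linarith
      have h2 : 2 * (2 / (A : ℝ)) * (2 * B) = 8 * (B / A) := by ring
      rw [h2]
      linarith)
    (by
      have h1 : coll w y (fun d => |(d : ℝ)| < B / T) ≤ (N : ℝ) ^ (-(4 * n * θ)) / 4 := by
        refine (coll_mono w y hw _ (fun d => |(d : ℝ)| ≤ B / T) (fun d hd => hd.le)).trans ?_
        refine (hY.interval T hT1 hTB).trans ?_
        rw [hT, ← Real.rpow_mul hN0.le, pw]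
        have h2 : θ + t1 * -σ = -(4 * n * θ) + -θ := by
          have h3 : t1 * σ = (4 * n + 2) * θ := by
            rw [ht1]
            field_simp
          linarith
        rw [h2, ← pw]
        have h3 : (N : ℝ) ^ (-θ) ≤ 1 / 4 := by
          rw [Real.rpow_neg hN0.le, ← one_div]
          exact one_div_le_one_div_of_le (by norm_num) (by linarith)
        have := mul_le_mul_of_nonneg_left h3 (p0 (-(4 * n * θ))).le
        linarith
      have h2 : ∑ g ∈ Ioc G (2 * B), coll w y (fun d => (g : ℤ) ∣ d) ^ (m + 1) ≤ (N : ℝ) ^ (-(4 * n * θ)) / 4 := by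
        have h3 : ∀ g ∈ Ioc G (2 * B), coll w y (fun d => (g : ℤ) ∣ d) ^ (m + 1) ≤ (N : ℝ) ^ (n * θ) * ((g : ℝ) ^ 2)⁻¹ := by
          intro g hg
          rw [mem_Ioc] at hg
          have hg1 : 1 ≤ g := by omega
          have hgr : (1 : ℝ) ≤ g := by exact_mod_cast hg1
          have hg0 : (0 : ℝ) < g := by linarith
          have h4 := pow_le_pow_left₀ (coll_nonneg w y hw _) (hY.residue g hg1 hg.2) (m + 1)
          refine h4.trans ?_
          rw [mul_pow, ← Real.rpow_natCast ((N : ℝ) ^ θ), ← Real.rpow_mul hN0.le, ← Real.rpow_natCast ((g : ℝ) ^ (-σ)),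
            ← Real.rpow_mul hg0.le]
          have h5 : θ * ((m + 1 : ℕ) : ℝ) = n * θ := by rw [hn]; push_cast; ring
          rw [h5]
          apply mul_le_mul_of_nonneg_left _ (p0 _).le
          have h6 : ((g : ℝ) ^ 2)⁻¹ = (g : ℝ) ^ (-2 : ℝ) := by
            rw [Real.rpow_neg hg0.le]
            norm_cast
          rw [h6]
          apply Real.rpow_le_rpow_of_exponent_le hgr
          push_cast
          rw [hn] at hnσ
          linarith
        refine (sum_le_sum h3).trans ?_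
        rw [← mul_sum]
        rcases le_or_gt G (2 * B) with h4 | h4
        · have h5 := sum_Ioc_inv_sq_le_sub (α := ℝ) (k := G) (n := 2 * B) (by omega) h4
          have h6 : (0 : ℝ) ≤ ((2 * B : ℕ) : ℝ)⁻¹ := by positivity
          have h7 : ∑ i ∈ Ioc G (2 * B), ((i : ℝ) ^ 2)⁻¹ ≤ 2 * (N : ℝ) ^ (-t2) := by
            have h8 : (G : ℝ)⁻¹ ≤ 2 * (N : ℝ) ^ (-t2) := by
              rw [Real.rpow_neg hN0.le, inv_le_comm₀ (by linarith) (by positivity)]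
              have : (2 * ((N : ℝ) ^ t2)⁻¹)⁻¹ = (N : ℝ) ^ t2 / 2 := by
                rw [mul_inv, inv_inv]
                ring
              rw [this]
              exact hG3
            linarith
          calc (N : ℝ) ^ (n * θ) * ∑ i ∈ Ioc G (2 * B), ((i : ℝ) ^ 2)⁻¹ ≤ (N : ℝ) ^ (n * θ) * (2 * (N : ℝ) ^ (-t2)) :=
                mul_le_mul_of_nonneg_left h7 (p0 _).le
            _ = 2 * (N : ℝ) ^ (n * θ + -t2) := by rw [← pw]; ring
            _ = 2 * ((N : ℝ) ^ (-(4 * n * θ)) * ((N : ℝ) ^ (-θ) * (N : ℝ) ^ (-θ))) := by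
                rw [pw, pw]
                congr 2
                rw [ht2]
                ring
            _ ≤ _ := by
                have h9 : (N : ℝ) ^ (-θ) ≤ 1 / 4 := by
                  rw [Real.rpow_neg hN0.le, ← one_div]
                  exact one_div_le_one_div_of_le (by norm_num) (by linarith)
                have h10 : (N : ℝ) ^ (-θ) * (N : ℝ) ^ (-θ) ≤ 1 / 16 := by
                  have := mul_le_mul h9 h9 (p0 _).le (by norm_num)
                  linarith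
                have := mul_le_mul_of_nonneg_left h10 (p0 (-(4 * n * θ))).le
                have h0 := (p0 (-(4 * n * θ))).le
                linarith
        · rw [Ioc_eq_empty (by omega), sum_empty, mul_zero]
          positivity
      linarith)
  intro S hS hsep
  refine (key S hS hsep).trans ?_
  refine (div_le_div_of_nonneg_left (by positivity) (p0 _) hτρ).trans ?_
  have b1 : ((2 * (R : ℝ) + 1)) ^ (m + 1) ≤ (N : ℝ) ^ (2 * n * θ) := by
    have h1 : 2 * (R : ℝ) + 1 ≤ (N : ℝ) ^ (2 * θ) := by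
      have h2 : (N : ℝ) ^ (2 * θ) = (N : ℝ) ^ θ * (N : ℝ) ^ θ := by rw [pw]; congr 1; ring
      rw [h2]
      nlinarith
    refine (pow_le_pow_left₀ (by positivity) h1 (m + 1)).trans (le_of_eq ?_)
    rw [← Real.rpow_natCast, ← Real.rpow_mul hN0.le]
    congr 1
    rw [hn]
    push_cast
    ring
  have b2 : (G : ℝ) + 1 ≤ (N : ℝ) ^ (t2 + θ) := by
    rw [← pw]
    nlinarith
  have b3 : 1 + 2 * (2 / (A : ℝ)) * N / (B / T) ≤ (N : ℝ) ^ (t1 + 2 * θ) := by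
    have h1 : 2 * (2 / (A : ℝ)) * N / (B / T) = 4 * T * (N / (A * B)) := by
      field_simp
      ring
    have h2 : (N : ℝ) / (A * B) ≤ (N : ℝ) ^ θ := by
      rw [div_le_iff₀ (by positivity)]
      have h3 : (N : ℝ) ^ θ * (N : ℝ) ^ (1 - θ) = N := by
        rw [pw]
        have : θ + (1 - θ) = 1 := by ring
        rw [this, Real.rpow_one]
      calc (N : ℝ) = (N : ℝ) ^ θ * (N : ℝ) ^ (1 - θ) := h3.symm
        _ ≤ _ := mul_le_mul_of_nonneg_left hAB (p0 _).le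
    rw [h1]
    have h3 : (N : ℝ) ^ (t1 + 2 * θ) = T * ((N : ℝ) ^ θ * (N : ℝ) ^ θ) := by
      rw [hT, pw, pw]
      congr 1
      ring
    rw [h3]
    have h4 : 4 * T * (N / (A * B)) ≤ 4 * T * (N : ℝ) ^ θ := mul_le_mul_of_nonneg_left h2 (by positivity)
    have h5 : 4 * T * (N : ℝ) ^ θ + 1 ≤ T * ((N : ℝ) ^ θ * (N : ℝ) ^ θ) := by
      have h6 : (1 : ℝ) ≤ T * (N : ℝ) ^ θ := by nlinarith
      have h7 : T * (N : ℝ) ^ θ * 17 ≤ T * (N : ℝ) ^ θ * (N : ℝ) ^ θ := mul_le_mul_of_nonneg_left h17 (by positivity)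
      nlinarith
    linarith
  have b4 : (2 : ℝ) ≤ (N : ℝ) ^ θ := by linarith
  have hs0 : 0 < (N : ℝ) ^ (-(4 * n * θ)) := p0 _
  rw [div_le_iff₀ hs0, pw]
  calc 2 * ((2 * (R : ℝ) + 1) ^ (m + 1) * ((G + 1) * (1 + 2 * (2 / (A : ℝ)) * N / (B / T)))) ≤
      (N : ℝ) ^ θ * ((N : ℝ) ^ (2 * n * θ) * ((N : ℝ) ^ (t2 + θ) * (N : ℝ) ^ (t1 + 2 * θ))) := by
        apply mul_le_mul b4 _ (by positivity) (by positivity)
        apply mul_le_mul b1 _ (by positivity) (by positivity)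
        exact mul_le_mul b2 b3 (by positivity) (by positivity)
    _ = (N : ℝ) ^ (θ + (2 * n * θ + (t2 + θ + (t1 + 2 * θ)))) := by rw [pw, pw, pw]
    _ ≤ _ := by
        apply pm
        have h1 : t1 = (4 * n + 2) / σ * θ := by rw [ht1]; ring
        rw [hc] at htot
        have h2 : θ + (2 * n * θ + (t2 + θ + (t1 + 2 * θ))) + 4 * n * θ = (11 * n + 6 + (4 * n + 2) / σ) * θ := by
          rw [h1, ht2]
          ring
        linarith

end Pool.Agent.V7H41.PX
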