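import Pool.Agent.V7H41.PX.Par

set_option autoImplicit false

/-! The values of a polynomial are spread. -/

namespace Pool.Agent.V7H41.PX
open Finset Polynomial

lemma lag (F : ℤ[X]) (d : ℕ) (hd : F.natDegree = d) (hF : F ≠ 0) (s : Finset ℕ) (hs : s.card = d + 1) :
    ((F.leadingCoeff : ℤ) : ℝ) = ∑ i ∈ s, ((F.eval (i : ℤ) : ℤ) : ℝ) / ∏ j ∈ s.erase i, ((i : ℝ) - j) := by
  have hinj : Function.Injective (Int.castRingHom ℝ) := Int.cast_injective
  have h1 := Lagrange.leadingCoeff_eq_sum (F := ℝ) (s := s) (v := fun i : ℕ => (i : ℝ)) (P := F.map (Int.castRingHom ℝ))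
    (fun a _ b _ h => by simpa using h)
    (by
      rw [hs, degree_map_eq_of_injective hinj, degree_eq_natDegree hF, hd]
      norm_cast)
  rw [leadingCoeff_map_of_injective hinj] at h1
  rw [show ((F.leadingCoeff : ℤ) : ℝ) = (Int.castRingHom ℝ) F.leadingCoeff from rfl, h1]
  apply sum_congr rfl
  intro i _
  congr 1
  rw [show ((i : ℝ)) = (Int.castRingHom ℝ) (i : ℤ) by simp, eval_map_apply]
  rfl

/-- many roots modulo `g` in a short interval -/
lemma residue_window (F : ℤ[X]) (d : ℕ) (hd : F.natDegree = d) (hF : F ≠ 0) (s : Finset ℕ) (hs : s.card = d + 1) (g l : ℕ)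
    (hg : ∀ i ∈ s, (g : ℤ) ∣ F.eval (i : ℤ)) (hl : ∀ i ∈ s, ∀ j ∈ s, |(i : ℤ) - j| ≤ l) :
    (g : ℤ) ≤ |F.leadingCoeff| * (l : ℤ) ^ ((d + 1) * d) := by
  classical
  obtain ⟨V, hV⟩ : ∃ V : ℤ, V = ∏ i ∈ s, ∏ j ∈ s.erase i, ((i : ℤ) - j) := ⟨_, rfl⟩
  have hV0 : V ≠ 0 := by
    rw [hV]
    rw [prod_ne_zero_iff]
    intro i _
    rw [prod_ne_zero_iff]
    intro j hj
    rw [mem_erase] at hj
    intro h
    apply hj.1
    omega
  have h1 : F.leadingCoeff * V = ∑ i ∈ s, F.eval (i : ℤ) * ∏ i' ∈ s.erase i, ∏ j ∈ s.erase i', ((i' : ℤ) - j) := by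
    have h2 := lag F d hd hF s hs
    have h3 : ((F.leadingCoeff * V : ℤ) : ℝ) =
        ((∑ i ∈ s, F.eval (i : ℤ) * ∏ i' ∈ s.erase i, ∏ j ∈ s.erase i', ((i' : ℤ) - j) : ℤ) : ℝ) := by
      rw [Int.cast_mul, h2, sum_mul, Int.cast_sum]
      apply sum_congr rfl
      intro i hi
      have e1 : V = (∏ j ∈ s.erase i, ((i : ℤ) - j)) * ∏ i' ∈ s.erase i, ∏ j ∈ s.erase i', ((i' : ℤ) - j) := by
        rw [hV]
        exact (mul_prod_erase s (fun i => ∏ j ∈ s.erase i, ((i : ℤ) - j)) hi).symm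
      have e2 : (∏ j ∈ s.erase i, ((i : ℝ) - j)) ≠ 0 := by
        rw [prod_ne_zero_iff]
        intro j hj
        rw [mem_erase] at hj
        intro h
        apply hj.1
        have : (i : ℝ) = j := by linarith
        exact (Nat.cast_injective this).symm
      rw [e1, Int.cast_mul, Int.cast_mul, div_mul_eq_mul_div, mul_div_assoc]
      congr 1
      have e3 : ((∏ j ∈ s.erase i, ((i : ℤ) - j) : ℤ) : ℝ) = ∏ j ∈ s.erase i, ((i : ℝ) - j) := by
        push_cast
        rfl
      rw [e3, mul_comm, mul_div_assoc, div_self e2, mul_one]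
    exact_mod_cast h3
  have h2 : (g : ℤ) ∣ F.leadingCoeff * V := by
    rw [h1]
    apply dvd_sum
    intro i hi
    exact (hg i hi).mul_right _
  have h3 : F.leadingCoeff * V ≠ 0 := mul_ne_zero (leadingCoeff_ne_zero.2 hF) hV0
  have h4 := Int.le_of_dvd (abs_pos.2 h3) ((dvd_abs _ _).2 h2)
  refine h4.trans ?_
  rw [abs_mul]
  apply mul_le_mul_of_nonneg_left _ (abs_nonneg _)
  rw [hV, abs_prod]
  have h5 : ∀ i ∈ s, |∏ j ∈ s.erase i, ((i : ℤ) - j)| ≤ (l : ℤ) ^ d := by
    intro i hi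
    rw [abs_prod]
    have h6 : (s.erase i).card = d := by rw [card_erase_of_mem hi, hs]; omega
    rw [← h6, ← prod_const]
    apply prod_le_prod
    · intro j _
      exact abs_nonneg _
    · intro j hj
      exact hl i hi j (mem_of_mem_erase hj)
  refine (prod_le_prod (fun i _ => abs_nonneg _) h5).trans ?_
  rw [prod_const, hs, ← pow_mul, mul_comm d (d + 1)]

lemma residue_count (F : ℤ[X]) (d : ℕ) (hd : F.natDegree = d) (hF : F ≠ 0) (M g l : ℕ) (hl : 1 ≤ l)
    (hlg : |F.leadingCoeff| * (l : ℤ) ^ ((d + 1) * d) < g) (T : Finset ℕ) (hT : ∀ m ∈ T, m ≤ M ∧ (g : ℤ) ∣ F.eval (m : ℤ)) :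
    T.card ≤ d * (M / l + 1) := by
  classical
  have h1 : T.card ≤ d * (T.image fun m => m / l).card := by
    apply card_le_mul_card_image
    intro a _
    by_contra hlt
    push Not at hlt
    obtain ⟨s, hsT, hs⟩ := exists_subset_card_eq (Nat.succ_le_of_lt hlt)
    have h2 := residue_window F d hd hF s hs g l
      (fun i hi => by
        have := hsT hi
        rw [mem_filter] at this
        exact (hT i this.1).2)
      (fun i hi j hj => by
        have h3 := (mem_filter.1 (hsT hi)).2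
        have h4 := (mem_filter.1 (hsT hj)).2
        have h5 := Nat.div_add_mod i l
        have h6 := Nat.div_add_mod j l
        have h7 := Nat.mod_lt i (by omega : 0 < l)
        have h8 := Nat.mod_lt j (by omega : 0 < l)
        rw [h3] at h5
        rw [h4] at h6
        rw [abs_le]
        generalize l * a = q at h5 h6
        constructor <;> omega)
    omega
  refine h1.trans (Nat.mul_le_mul_left _ ?_)
  rw [← card_range (M / l + 1)]
  apply card_le_card
  intro a ha
  rw [mem_image] at ha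
  obtain ⟨m, hm, rfl⟩ := ha
  rw [mem_range]
  exact Nat.lt_succ_of_le (Nat.div_le_div_right (hT m hm).1)

/-- the number of the roots modulo `g` -/
lemma residue_real (F : ℤ[X]) (d : ℕ) (hd : F.natDegree = d) (hd1 : 1 ≤ d) (hF : F ≠ 0) (M g : ℕ) (hg : 1 ≤ g)
    (T : Finset ℕ) (hT : ∀ m ∈ T, 1 ≤ m ∧ m ≤ M ∧ (g : ℤ) ∣ F.eval (m : ℤ)) :
    (T.card : ℝ) ≤ 4 * d * |(F.leadingCoeff : ℝ)| * (M * (g : ℝ) ^ (-(1 / (((d + 1) * d : ℕ) : ℝ)))) + d := by
  obtain ⟨c, hc⟩ : ∃ c : ℝ, c = |(F.leadingCoeff : ℝ)| := ⟨_, rfl⟩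
  have hc1 : 1 ≤ c := by
    rw [hc]
    have := Int.one_le_abs (leadingCoeff_ne_zero.2 hF)
    exact_mod_cast this
  have hc0 : 0 < c := by linarith
  obtain ⟨D, hD⟩ : ∃ D : ℕ, D = (d + 1) * d := ⟨_, rfl⟩
  have hD1 : 1 ≤ D := by rw [hD]; exact Nat.mul_pos (by omega) (by omega)
  have hDr : (1 : ℝ) ≤ D := by exact_mod_cast hD1
  have hD0 : (0 : ℝ) < D := by linarith
  have hgr : (1 : ℝ) ≤ g := by exact_mod_cast hg
  have hg0 : (0 : ℝ) < g := by linarith
  have hdr : (1 : ℝ) ≤ d := by exact_mod_cast hd1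
  rw [← hc, ← hD]
  obtain ⟨γ, hγ⟩ : ∃ γ : ℝ, γ = (g : ℝ) ^ (-(1 / (D : ℝ))) := ⟨_, rfl⟩
  have hγ0 : 0 < γ := by rw [hγ]; positivity
  have hM0 : (0 : ℝ) ≤ M := Nat.cast_nonneg M
  rw [← hγ]
  have h2c : (2 * c) ^ (1 / (D : ℝ)) ≤ 2 * c := by
    calc (2 * c) ^ (1 / (D : ℝ)) ≤ (2 * c) ^ (1 : ℝ) := by
          apply Real.rpow_le_rpow_of_exponent_le (by linarith)
          rw [div_le_one hD0]
          exact hDr
      _ = 2 * c := Real.rpow_one _
  obtain ⟨a, ha⟩ : ∃ a : ℝ, a = ((g : ℝ) / (2 * c)) ^ (1 / (D : ℝ)) := ⟨_, rfl⟩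
  have ha0 : 0 < a := by rw [ha]; positivity
  have hainv : 1 / a ≤ 2 * c * γ := by
    rw [ha, Real.div_rpow hg0.le (by positivity), hγ, Real.rpow_neg hg0.le, one_div_div, div_eq_mul_inv]
    exact mul_le_mul_of_nonneg_right h2c (by positivity)
  rcases le_or_gt 1 a with h1 | h1
  · obtain ⟨l, hl⟩ : ∃ l : ℕ, l = ⌊a⌋₊ := ⟨_, rfl⟩
    have hl1 : 1 ≤ l := by rw [hl]; exact Nat.one_le_floor_iff _ |>.2 h1
    have hla : (l : ℝ) ≤ a := by rw [hl]; exact Nat.floor_le ha0.le
    have hla2 : a < l + 1 := by rw [hl]; exact Nat.lt_floor_add_one a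
    have hlr : (1 : ℝ) ≤ l := by exact_mod_cast hl1
    have h2 : c * (l : ℝ) ^ D < g := by
      have h3 : (l : ℝ) ^ D ≤ g / (2 * c) := by
        calc (l : ℝ) ^ D ≤ a ^ D := pow_le_pow_left₀ (by positivity) hla D
          _ = g / (2 * c) := by
            rw [ha, ← Real.rpow_natCast, ← Real.rpow_mul (by positivity), one_div, inv_mul_cancel₀ hD0.ne', Real.rpow_one]
      calc c * (l : ℝ) ^ D ≤ c * (g / (2 * c)) := mul_le_mul_of_nonneg_left h3 hc0.le
        _ = g / 2 := by field_simp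
        _ < g := by linarith
    have h3 : |F.leadingCoeff| * (l : ℤ) ^ ((d + 1) * d) < g := by
      rw [hc, hD] at h2
      exact_mod_cast h2
    have h4 := residue_count F d hd hF M g l hl1 h3 T (fun m hm => (hT m hm).2)
    have h5 : (T.card : ℝ) ≤ d * (M / l + 1) := by
      have h6 : (T.card : ℝ) ≤ (d : ℝ) * (((M / l : ℕ) : ℝ) + 1) := by exact_mod_cast h4
      refine h6.trans ?_
      apply mul_le_mul_of_nonneg_left _ (by positivity)
      have := Nat.cast_div_le (α := ℝ) (m := M) (n := l)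
      linarith
    have h6 : (1 : ℝ) / l ≤ 2 * (1 / a) := by
      rw [mul_one_div, div_le_div_iff₀ (by positivity) ha0]
      linarith
    calc (T.card : ℝ) ≤ d * (M / l + 1) := h5
      _ = d * (M * (1 / l)) + d := by ring
      _ ≤ d * (M * (2 * (2 * c * γ))) + d := by
        apply add_le_add _ le_rfl
        apply mul_le_mul_of_nonneg_left _ (by positivity)
        apply mul_le_mul_of_nonneg_left _ hM0
        linarith
      _ = _ := by ring
  · have h2 : T.card ≤ M := by
      have h3 : T.card ≤ (Icc 1 M).card := by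
        apply card_le_card
        intro m hm
        rw [mem_Icc]
        exact ⟨(hT m hm).1, (hT m hm).2.1⟩
      rw [Nat.card_Icc] at h3
      omega
    have h3 : (T.card : ℝ) ≤ M := by exact_mod_cast h2
    have h4 : 1 ≤ 1 / a := by
      rw [le_div_iff₀ ha0]
      linarith
    have h5 : (M : ℝ) ≤ M * (2 * c * γ) := by
      have : 1 ≤ 2 * c * γ := by linarith
      nlinarith
    have h6 : (M : ℝ) * (2 * c * γ) ≤ 4 * d * c * (M * γ) := by
      have : 0 ≤ M * (c * γ) := by positivity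
      nlinarith
    linarith

/-- spaced subsets -/
lemma spaced (s : ℕ) (hs : 1 ≤ s) : ∀ (n : ℕ) (T : Finset ℕ), n * s < T.card → ∃ U ⊆ T, U.card = n + 1 ∧
    ∀ i ∈ U, ∀ j ∈ U, i ≠ j → (s : ℤ) ≤ |(i : ℤ) - j| := by
  classical
  intro n
  induction n with
  | zero =>
    intro T hT
    rw [zero_mul, card_pos] at hT
    obtain ⟨m, hm⟩ := hT
    refine ⟨{m}, by simpa using hm, by simp, ?_⟩
    intro i hi j hj hij
    rw [mem_singleton] at hi hj
    exact absurd (hi.trans hj.symm) hij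
  | succ n ih =>
    intro T hT
    have hne : T.Nonempty := by
      rw [← card_pos]
      omega
    obtain ⟨m, hm⟩ : ∃ m, m = T.min' hne := ⟨_, rfl⟩
    have hmT : m ∈ T := by rw [hm]; exact min'_mem _ _
    have hmin : ∀ t ∈ T, m ≤ t := by intro t ht; rw [hm]; exact min'_le _ _ ht
    obtain ⟨T', hT'⟩ : ∃ T', T' = T.filter fun t => m + s ≤ t := ⟨_, rfl⟩
    have h1 : (T.filter fun t => ¬ m + s ≤ t).card ≤ s := by
      calc (T.filter fun t => ¬ m + s ≤ t).card ≤ (Ico m (m + s)).card := by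
            apply card_le_card
            intro t ht
            rw [mem_filter] at ht
            rw [mem_Ico]
            exact ⟨hmin t ht.1, not_le.1 ht.2⟩
        _ = s := by rw [Nat.card_Ico]; omega
    have h2 : T.card = T'.card + (T.filter fun t => ¬ m + s ≤ t).card := by
      rw [hT']
      exact (card_filter_add_card_filter_not _).symm
    obtain ⟨U, hU, hUc, hUs⟩ := ih T' (by
      have : (n + 1) * s = n * s + s := by ring
      omega)
    have hUT : ∀ i ∈ U, i ∈ T ∧ m + s ≤ i := by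
      intro i hi
      have := hU hi
      rw [hT', mem_filter] at this
      exact this
    have hmU : m ∉ U := by
      intro h
      have := (hUT m h).2
      omega
    refine ⟨insert m U, ?_, by rw [card_insert_of_notMem hmU, hUc], ?_⟩
    · intro i hi
      rw [mem_insert] at hi
      rcases hi with rfl | hi
      · exact hmT
      · exact (hUT i hi).1
    · intro i hi j hj hij
      rw [mem_insert] at hi hj
      rcases hi with rfl | hi
      · rcases hj with rfl | hj
        · exact absurd rfl hij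
        · have := (hUT j hj).2
          rw [abs_sub_comm, abs_of_nonneg (by omega)]
          omega
      · rcases hj with rfl | hj
        · have := (hUT i hi).2
          rw [abs_of_nonneg (by omega)]
          omega
        · exact hUs i hi j hj hij

/-- the number of the small values -/
lemma small_count (F : ℤ[X]) (d : ℕ) (hd : F.natDegree = d) (hd1 : 1 ≤ d) (hF : F ≠ 0) (H : ℝ) (hH : 0 ≤ H) (T : Finset ℕ)
    (hT : ∀ m ∈ T, |((F.eval (m : ℤ) : ℤ) : ℝ)| ≤ H) :
    (T.card : ℝ) ≤ d * ((((d : ℝ) + 1) * H) ^ (1 / (d : ℝ)) + 1) := by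
  obtain ⟨a, ha⟩ : ∃ a : ℝ, a = (((d : ℝ) + 1) * H) ^ (1 / (d : ℝ)) := ⟨_, rfl⟩
  have ha0 : 0 ≤ a := by rw [ha]; positivity
  have hdr : (1 : ℝ) ≤ d := by exact_mod_cast hd1
  have hd0 : (0 : ℝ) < d := by linarith
  obtain ⟨s, hs⟩ : ∃ s : ℕ, s = ⌊a⌋₊ + 1 := ⟨_, rfl⟩
  have hsa : a < s := by rw [hs]; push_cast; exact Nat.lt_floor_add_one a
  have hs1 : 1 ≤ s := by omega
  have hs0 : (0 : ℝ) < s := by exact_mod_cast hs1
  have h1 : ((d : ℝ) + 1) * H < (s : ℝ) ^ d := by
    have h2 : a ^ d = ((d : ℝ) + 1) * H := by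
      rw [ha, ← Real.rpow_natCast, ← Real.rpow_mul (by positivity), one_div, inv_mul_cancel₀ hd0.ne', Real.rpow_one]
    rw [← h2]
    exact pow_lt_pow_left₀ hsa ha0 (by omega)
  have h2 : T.card ≤ d * s := by
    by_contra hlt
    push Not at hlt
    obtain ⟨U, hU, hUc, hUs⟩ := spaced s hs1 d T hlt
    have h3 := lag F d hd hF U hUc
    have h4 : |((F.leadingCoeff : ℤ) : ℝ)| ≤ ∑ i ∈ U, H / (s : ℝ) ^ d := by
      rw [h3]
      refine (abs_sum_le_sum_abs _ _).trans ?_
      apply sum_le_sum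
      intro i hi
      rw [abs_div]
      apply div_le_div₀ hH (hT i (hU hi)) (by positivity)
      rw [abs_prod]
      have h6 : (U.erase i).card = d := by rw [card_erase_of_mem hi, hUc]; omega
      rw [← h6, ← prod_const]
      apply prod_le_prod
      · intro j _
        positivity
      · intro j hj
        rw [mem_erase] at hj
        have h7 := hUs i hi j hj.2 (Ne.symm hj.1)
        exact_mod_cast h7
    rw [sum_const, hUc, nsmul_eq_mul] at h4
    have h5 : (1 : ℝ) ≤ |((F.leadingCoeff : ℤ) : ℝ)| := by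
      have := Int.one_le_abs (leadingCoeff_ne_zero.2 hF)
      exact_mod_cast this
    have h6 : ((d + 1 : ℕ) : ℝ) * (H / (s : ℝ) ^ d) < 1 := by
      rw [← mul_div_assoc, div_lt_one (by positivity)]
      push_cast
      exact h1
    linarith
  have h3 : (T.card : ℝ) ≤ d * s := by exact_mod_cast h2
  rw [← ha]
  refine h3.trans ?_
  apply mul_le_mul_of_nonneg_left _ hd0.le
  rw [hs]
  push_cast
  have := Nat.floor_le ha0
  linarith

end Pool.Agent.V7H41.PX
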