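import Pool.Agent.V7H41.PX.Poly
import Pool.Agent.V7H41.PX.En
import Pool.Agent.TH212.PL.L1

set_option autoImplicit false

/-! The values of polynomials at the elements of a dense set: few large Fourier coefficients, and spread. -/

namespace Pool.Agent.V7H41.PX
open Finset Polynomial
open Pool.Agent.TH212.PL (cf abs_eval_le energy_poly')
open Pool.Agent.H373R2.T7 (energy)

open Classical in
lemma coll_unif (T : Finset ℕ) (hT : T.Nonempty) (v : ℕ → ℤ) (R : ℤ → Prop) (c : ℝ)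
    (h : ∀ l ∈ T, ((T.filter fun k => R (v k - v l)).card : ℝ) ≤ c) :
    coll (fun _ : {m // m ∈ T} => 1 / (T.card : ℝ)) (fun m => v m.1) R ≤ c / T.card := by
  have hc : (0 : ℝ) < T.card := by exact_mod_cast hT.card_pos
  unfold coll
  rw [sum_comm]
  have h1 : ∀ l : {m // m ∈ T}, ∑ k : {m // m ∈ T}, (if R (v k.1 - v l.1) then 1 / (T.card : ℝ) * (1 / (T.card : ℝ)) else 0) ≤
      c * (1 / (T.card : ℝ) * (1 / (T.card : ℝ))) := by
    intro l
    rw [Finset.sum_coe_sort T (fun k => if R (v k - v l.1) then 1 / (T.card : ℝ) * (1 / (T.card : ℝ)) else 0), ← sum_filter,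
      sum_const, nsmul_eq_mul]
    exact mul_le_mul_of_nonneg_right (h l.1 l.2) (by positivity)
  refine (sum_le_sum fun l _ => h1 l).trans (le_of_eq ?_)
  rw [sum_const, card_univ, Fintype.card_coe, nsmul_eq_mul]
  field_simp

lemma cf_pos (f : ℤ[X]) (hd : 1 ≤ f.natDegree) : 1 ≤ cf f := by
  unfold cf
  have h1 : (f.coeff f.natDegree).natAbs ≤ ∑ i ∈ range (f.natDegree + 1), (f.coeff i).natAbs :=
    single_le_sum (f := fun i => (f.coeff i).natAbs) (fun i _ => Nat.zero_le _) (by rw [mem_range]; omega)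
  have h2 : f.coeff f.natDegree ≠ 0 := by
    have : f ≠ 0 := by
      rintro rfl
      simp at hd
    exact leadingCoeff_ne_zero.2 this
  have h3 := Int.natAbs_pos.2 h2
  omega

open Classical in
theorem spread_poly (f : ℤ[X]) (hd : 1 ≤ f.natDegree) : ∃ C : ℝ, 0 < C ∧ ∀ (y : ℕ) (T : Finset ℕ), 1 ≤ y → T.Nonempty → T ⊆ Icc 1 y →
    Spread (fun _ : {m // m ∈ T} => 1 / (T.card : ℝ)) (fun m => f.eval ((m.1 : ℕ) : ℤ)) (cf f * y ^ f.natDegree) (C * (y / T.card))
      (1 / (((f.natDegree + 1) * f.natDegree : ℕ) : ℝ)) := by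
  obtain ⟨d, hdd⟩ : ∃ d, d = f.natDegree := ⟨_, rfl⟩
  rw [← hdd]
  rw [← hdd] at hd
  have hf0 : f ≠ 0 := by
    rintro rfl
    simp at hdd
    omega
  have hcf := cf_pos f (by omega)
  have hcfr : (1 : ℝ) ≤ cf f := by exact_mod_cast hcf
  have hdr : (1 : ℝ) ≤ d := by exact_mod_cast hd
  have hd0 : (0 : ℝ) < d := by linarith
  obtain ⟨c, hc⟩ : ∃ c : ℝ, c = |(f.leadingCoeff : ℝ)| := ⟨_, rfl⟩
  have hc1 : 1 ≤ c := by
    rw [hc]
    have := Int.one_le_abs (leadingCoeff_ne_zero.2 hf0)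
    exact_mod_cast this
  obtain ⟨D, hD⟩ : ∃ D : ℕ, D = (d + 1) * d := ⟨_, rfl⟩
  have hDd : d ≤ D := by rw [hD]; nlinarith
  have hDr : (d : ℝ) ≤ D := by exact_mod_cast hDd
  have hD0 : (0 : ℝ) < D := by linarith
  rw [← hD]
  -- shifted polynomials
  have hF : ∀ a : ℤ, (f - Polynomial.C a).natDegree = d ∧ f - Polynomial.C a ≠ 0 ∧ (f - Polynomial.C a).leadingCoeff = f.leadingCoeff := by
    intro a
    have h1 : (f - Polynomial.C a).natDegree = d := by rw [natDegree_sub_C, hdd]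
    refine ⟨h1, ?_, ?_⟩
    · intro h
      rw [h, natDegree_zero] at h1
      omega
    · apply leadingCoeff_sub_of_degree_lt
      refine lt_of_le_of_lt degree_C_le ?_
      rw [degree_eq_natDegree hf0]
      exact_mod_cast (by omega : 0 < f.natDegree)
  refine ⟨4 * d * c + 2 * d * cf f + d * ((d + 1) * cf f) + d * cf f, by positivity, fun y T hy hTn hT => ?_⟩
  have hyr : (1 : ℝ) ≤ y := by exact_mod_cast hy
  have hTc : (0 : ℝ) < T.card := by exact_mod_cast hTn.card_pos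
  have hC1 : 0 ≤ 4 * d * c + 2 * d * (cf f : ℝ) := by positivity
  have hC2 : 0 ≤ d * ((d + 1) * (cf f : ℝ)) + d * (cf f : ℝ) := by positivity
  constructor
  · intro m
    have h1 := hT m.2
    rw [mem_Icc] at h1
    have h2 := abs_eval_le f m.1 h1.1
    refine h2.trans ?_
    rw [← hdd]
    push_cast
    apply mul_le_mul_of_nonneg_left _ (by positivity)
    exact_mod_cast Nat.pow_le_pow_left h1.2 d
  · intro g hg1 hg2
    have hgr : (1 : ℝ) ≤ g := by exact_mod_cast hg1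
    have hg0 : (0 : ℝ) < g := by linarith
    obtain ⟨γ, hγ⟩ : ∃ γ : ℝ, γ = (g : ℝ) ^ (-(1 / (D : ℝ))) := ⟨_, rfl⟩
    have hγ0 : 0 < γ := by rw [hγ]; positivity
    rw [← hγ]
    have h1 := coll_unif T hTn (fun m => f.eval (m : ℤ)) (fun z => (g : ℤ) ∣ z) (4 * d * c * (y * γ) + d) (by
      intro l hl
      have h2 := residue_real (f - Polynomial.C (f.eval (l : ℤ))) d (hF _).1 hd (hF _).2.1 y g hg1
        (T.filter fun k => (g : ℤ) ∣ f.eval (k : ℤ) - f.eval (l : ℤ)) (by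
          intro m hm
          rw [mem_filter] at hm
          have h3 := hT hm.1
          rw [mem_Icc] at h3
          refine ⟨h3.1, h3.2, ?_⟩
          rw [eval_sub, eval_C]
          exact hm.2)
      rw [(hF _).2.2, ← hc, ← hD, ← hγ] at h2
      convert h2)
    refine h1.trans ?_
    have h3 : 1 ≤ 2 * cf f * (y * γ) := by
      -- g ^ (1 / D) ≤ 2 cf y
      have h4 : (g : ℝ) ≤ 2 * (cf f * y ^ D) := by
        have h5 : (g : ℝ) ≤ 2 * (cf f * (y : ℝ) ^ d) := by exact_mod_cast hg2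
        refine h5.trans ?_
        apply mul_le_mul_of_nonneg_left _ (by norm_num)
        apply mul_le_mul_of_nonneg_left _ (by positivity)
        exact pow_le_pow_right₀ hyr hDd
      have h5 : (g : ℝ) ^ (1 / (D : ℝ)) ≤ 2 * cf f * y := by
        calc (g : ℝ) ^ (1 / (D : ℝ)) ≤ (2 * (cf f * (y : ℝ) ^ D)) ^ (1 / (D : ℝ)) :=
              Real.rpow_le_rpow hg0.le h4 (by positivity)
          _ = (2 * (cf f : ℝ)) ^ (1 / (D : ℝ)) * y := by
              rw [← mul_assoc, Real.mul_rpow (by positivity) (by positivity), ← Real.rpow_natCast, ← Real.rpow_mul (by positivity),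
                mul_one_div, div_self hD0.ne', Real.rpow_one]
          _ ≤ 2 * cf f * y := by
              apply mul_le_mul_of_nonneg_right _ (by positivity)
              calc (2 * (cf f : ℝ)) ^ (1 / (D : ℝ)) ≤ (2 * (cf f : ℝ)) ^ (1 : ℝ) := by
                    apply Real.rpow_le_rpow_of_exponent_le (by linarith)
                    rw [div_le_one hD0]
                    linarith
                _ = _ := Real.rpow_one _
      have h6 : (g : ℝ) ^ (1 / (D : ℝ)) * γ = 1 := by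
        rw [hγ, ← Real.rpow_add hg0, add_neg_cancel, Real.rpow_zero]
      calc (1 : ℝ) = (g : ℝ) ^ (1 / (D : ℝ)) * γ := h6.symm
        _ ≤ (2 * cf f * y) * γ := mul_le_mul_of_nonneg_right h5 hγ0.le
        _ = _ := by ring
    rw [div_le_iff₀ hTc]
    have h4 : (4 * d * c + 2 * d * cf f + d * ((d + 1) * cf f) + d * cf f) * (y / T.card) * γ * T.card =
        (4 * d * c + 2 * d * cf f) * (y * γ) + (d * ((d + 1) * cf f) + d * cf f) * (y * γ) := by
      field_simp
      ring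
    rw [h4]
    have h5 : 0 ≤ (d * ((d + 1) * (cf f : ℝ)) + d * cf f) * (y * γ) := mul_nonneg hC2 (by positivity)
    have h6 : (d : ℝ) ≤ 2 * d * cf f * (y * γ) := by
      have := mul_le_mul_of_nonneg_left h3 hd0.le
      linarith
    linarith
  · intro t ht1 ht2
    have ht0 : 0 < t := by linarith
    obtain ⟨γ, hγ⟩ : ∃ γ : ℝ, γ = t ^ (-(1 / (D : ℝ))) := ⟨_, rfl⟩
    have hγ0 : 0 < γ := by rw [hγ]; positivity
    rw [← hγ]
    have hH0 : (0 : ℝ) ≤ ((cf f * y ^ d : ℕ) : ℝ) / t := by positivity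
    have h1 := coll_unif T hTn (fun m => f.eval (m : ℤ)) (fun z => |(z : ℝ)| ≤ ((cf f * y ^ d : ℕ) : ℝ) / t)
      (d * ((((d : ℝ) + 1) * (((cf f * y ^ d : ℕ) : ℝ) / t)) ^ (1 / (d : ℝ)) + 1)) (by
      intro l hl
      refine small_count (f - Polynomial.C (f.eval (l : ℤ))) d (hF _).1 hd (hF _).2.1 _ hH0
        (T.filter fun k => |((f.eval (k : ℤ) - f.eval (l : ℤ) : ℤ) : ℝ)| ≤ ((cf f * y ^ d : ℕ) : ℝ) / t) (by
          intro m hm
          rw [mem_filter] at hm
          rw [eval_sub, eval_C]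
          exact hm.2))
    refine h1.trans ?_
    have h2 : (((d : ℝ) + 1) * (((cf f * y ^ d : ℕ) : ℝ) / t)) ^ (1 / (d : ℝ)) ≤ (d + 1) * cf f * (y * γ) := by
      have e1 : ((d : ℝ) + 1) * (((cf f * y ^ d : ℕ) : ℝ) / t) = (((d : ℝ) + 1) * cf f) * (y : ℝ) ^ d * t⁻¹ := by
        push_cast
        ring
      rw [e1, Real.mul_rpow (by positivity) (by positivity), Real.mul_rpow (by positivity) (by positivity),
        ← Real.rpow_natCast (y : ℝ) d, ← Real.rpow_mul (by positivity), mul_one_div, div_self hd0.ne', Real.rpow_one]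
      have h3 : (((d : ℝ) + 1) * cf f) ^ (1 / (d : ℝ)) ≤ (d + 1) * cf f := by
        calc (((d : ℝ) + 1) * cf f) ^ (1 / (d : ℝ)) ≤ (((d : ℝ) + 1) * cf f) ^ (1 : ℝ) := by
              apply Real.rpow_le_rpow_of_exponent_le
              · nlinarith
              · rw [div_le_one hd0]
                exact hdr
          _ = _ := Real.rpow_one _
      have h4 : t⁻¹ ^ (1 / (d : ℝ)) ≤ γ := by
        rw [hγ, Real.inv_rpow ht0.le, ← Real.rpow_neg ht0.le]
        apply Real.rpow_le_rpow_of_exponent_le ht1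
        apply neg_le_neg
        exact one_div_le_one_div_of_le hd0 hDr
      calc (((d : ℝ) + 1) * cf f) ^ (1 / (d : ℝ)) * y * t⁻¹ ^ (1 / (d : ℝ)) ≤ ((d + 1) * cf f) * y * γ := by
            apply mul_le_mul _ h4 (by positivity) (by positivity)
            exact mul_le_mul_of_nonneg_right h3 (by positivity)
        _ = _ := by ring
    have h3 : 1 ≤ cf f * (y * γ) := by
      have h4 : t ≤ cf f * (y : ℝ) ^ D := by
        have h5 : t ≤ cf f * (y : ℝ) ^ d := by
          push_cast at ht2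
          exact ht2
        refine h5.trans ?_
        apply mul_le_mul_of_nonneg_left _ (by positivity)
        exact pow_le_pow_right₀ hyr hDd
      have h5 : t ^ (1 / (D : ℝ)) ≤ cf f * y := by
        calc t ^ (1 / (D : ℝ)) ≤ ((cf f : ℝ) * (y : ℝ) ^ D) ^ (1 / (D : ℝ)) :=
              Real.rpow_le_rpow ht0.le h4 (by positivity)
          _ = (cf f : ℝ) ^ (1 / (D : ℝ)) * y := by
              rw [Real.mul_rpow (by positivity) (by positivity), ← Real.rpow_natCast, ← Real.rpow_mul (by positivity),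
                mul_one_div, div_self hD0.ne', Real.rpow_one]
          _ ≤ cf f * y := by
              apply mul_le_mul_of_nonneg_right _ (by positivity)
              calc (cf f : ℝ) ^ (1 / (D : ℝ)) ≤ (cf f : ℝ) ^ (1 : ℝ) := by
                    apply Real.rpow_le_rpow_of_exponent_le hcfr
                    rw [div_le_one hD0]
                    linarith
                _ = _ := Real.rpow_one _
      have h6 : t ^ (1 / (D : ℝ)) * γ = 1 := by
        rw [hγ, ← Real.rpow_add ht0, add_neg_cancel, Real.rpow_zero]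
      calc (1 : ℝ) = t ^ (1 / (D : ℝ)) * γ := h6.symm
        _ ≤ (cf f * y) * γ := mul_le_mul_of_nonneg_right h5 hγ0.le
        _ = _ := by ring
    rw [div_le_iff₀ hTc]
    have h4 : (4 * d * c + 2 * d * cf f + d * ((d + 1) * cf f) + d * cf f) * (y / T.card) * γ * T.card =
        (4 * d * c + 2 * d * cf f) * (y * γ) + (d * ((d + 1) * cf f) + d * cf f) * (y * γ) := by
      field_simp
      ring
    rw [h4]
    have h5 : 0 ≤ (4 * d * c + 2 * d * (cf f : ℝ)) * (y * γ) := mul_nonneg hC1 (by positivity)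
    have h6 : (d : ℝ) * ((((d : ℝ) + 1) * (((cf f * y ^ d : ℕ) : ℝ) / t)) ^ (1 / (d : ℝ)) + 1) ≤
        d * ((d + 1) * cf f * (y * γ) + cf f * (y * γ)) :=
      mul_le_mul_of_nonneg_left (add_le_add h2 h3) hd0.le
    have h7 : d * ((d + 1) * cf f * (y * γ) + cf f * (y * γ)) = (d * ((d + 1) * cf f) + d * cf f) * ((y : ℝ) * γ) := by ring
    linarith

open Classical in
/-- few large Fourier coefficients for polynomial values -/
theorem few_poly (f : ℤ[X]) (hd : 1 ≤ f.natDegree) : ∃ (p : ℕ) (C : ℝ), 0 < C ∧ ∀ (x : ℕ) (T : Finset ℕ), 1 ≤ x → T.Nonempty →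
    T ⊆ Icc 1 x → ∀ ρ : ℝ, 0 < ρ → ρ ≤ 1 →
    FewLarge (fun _ : {m // m ∈ T} => 1 / (T.card : ℝ)) (fun m => f.eval ((m.1 : ℕ) : ℤ)) (x ^ f.natDegree) ρ
      (C * ((x / T.card) / ρ) ^ (2 * p)) := by
  obtain ⟨p, C₀, hC₀, hE⟩ := energy_poly' f hd
  obtain ⟨d, hdd⟩ : ∃ d, d = f.natDegree := ⟨_, rfl⟩
  rw [← hdd] at hE ⊢
  refine ⟨p, 1 + 6 * (2 * p * cf f + 2) * C₀, by positivity, fun x T hx hTn hT ρ hρ hρ1 => ?_⟩
  have hxr : (1 : ℝ) ≤ x := by exact_mod_cast hx
  have hx0 : (0 : ℝ) < x := by linarith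
  have hTc : (0 : ℝ) < T.card := by exact_mod_cast hTn.card_pos
  have hTx : (T.card : ℝ) ≤ x := by
    have := card_le_card hT
    rw [Nat.card_Icc] at this
    exact_mod_cast (by omega : T.card ≤ x)
  have : Nonempty {m // m ∈ T} := by
    obtain ⟨m, hm⟩ := hTn
    exact ⟨⟨m, hm⟩⟩
  have h1 := few_energy (fun m : {m // m ∈ T} => f.eval ((m.1 : ℕ) : ℤ)) p (x ^ d) (cf f * x ^ d) (Nat.one_le_pow _ _ (by omega))
    (by
      intro m
      have h1 := hT m.2
      rw [mem_Icc] at h1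
      have h2 := abs_eval_le f m.1 h1.1
      refine h2.trans ?_
      rw [← hdd]
      push_cast
      apply mul_le_mul_of_nonneg_left _ (by positivity)
      exact_mod_cast Nat.pow_le_pow_left h1.2 d) ρ hρ
  rw [Fintype.card_coe] at h1
  intro S hS hsep
  refine (h1 S hS hsep).trans ?_
  -- the energy
  have h2 : energy' p (fun m : {m // m ∈ T} => f.eval ((m.1 : ℕ) : ℤ)) ≤ energy p x (fun m => f.eval (m : ℤ)) := by
    have e1 : energy' p (fun m : {m // m ∈ T} => f.eval ((m.1 : ℕ) : ℤ)) =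
        (((univ : Finset ((Fin p → {m // m ∈ T}) × (Fin p → {m // m ∈ T}))).filter fun q =>
          ∑ j, f.eval (((q.1 j).1 : ℕ) : ℤ) = ∑ j, f.eval (((q.2 j).1 : ℕ) : ℤ)).card : ℝ) := by
      unfold energy'
      rw [card_filter, Fintype.sum_prod_type]
      push_cast
      rfl
    rw [e1]
    unfold energy
    apply Nat.cast_le.2
    apply card_le_card_of_injOn (fun q => (fun j => ((q.1 j).1 : ℕ), fun j => ((q.2 j).1 : ℕ)))
    · intro q hq
      rw [mem_coe, mem_filter] at hq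
      rw [mem_coe, mem_filter, mem_product, Fintype.mem_piFinset, Fintype.mem_piFinset]
      exact ⟨⟨fun j => hT (q.1 j).2, fun j => hT (q.2 j).2⟩, hq.2⟩
    · intro q _ q' _ h3
      simp only [Prod.mk.injEq] at h3
      apply Prod.ext
      · funext j
        exact Subtype.ext (congrFun h3.1 j)
      · funext j
        exact Subtype.ext (congrFun h3.2 j)
  have h3 := hE x hx
  have h4 : energy' p (fun m : {m // m ∈ T} => f.eval ((m.1 : ℕ) : ℤ)) * (x : ℝ) ^ d ≤ C₀ * (x : ℝ) ^ (2 * p) :=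
    (mul_le_mul_of_nonneg_right h2 (by positivity)).trans h3
  have h5 : (((2 * p * (cf f * x ^ d) + 1 : ℕ) : ℝ) + ((x ^ d : ℕ) : ℝ)) ≤ (2 * p * cf f + 2) * (x : ℝ) ^ d := by
    have h6 : (1 : ℝ) ≤ (x : ℝ) ^ d := one_le_pow₀ hxr
    push_cast
    nlinarith
  have hE0 := energy'_nonneg p (fun m : {m // m ∈ T} => f.eval ((m.1 : ℕ) : ℤ))
  have h6 : 6 * (((2 * p * (cf f * x ^ d) + 1 : ℕ) : ℝ) + ((x ^ d : ℕ) : ℝ)) *
      energy' p (fun m : {m // m ∈ T} => f.eval ((m.1 : ℕ) : ℤ)) ≤ 6 * (2 * p * cf f + 2) * C₀ * (x : ℝ) ^ (2 * p) := by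
    calc 6 * (((2 * p * (cf f * x ^ d) + 1 : ℕ) : ℝ) + ((x ^ d : ℕ) : ℝ)) *
        energy' p (fun m : {m // m ∈ T} => f.eval ((m.1 : ℕ) : ℤ)) ≤
        6 * ((2 * p * cf f + 2) * (x : ℝ) ^ d) * energy' p (fun m : {m // m ∈ T} => f.eval ((m.1 : ℕ) : ℤ)) := by
          apply mul_le_mul_of_nonneg_right _ hE0
          apply mul_le_mul_of_nonneg_left h5 (by norm_num)
      _ = 6 * (2 * p * cf f + 2) * (energy' p (fun m : {m // m ∈ T} => f.eval ((m.1 : ℕ) : ℤ)) * (x : ℝ) ^ d) := by ring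
      _ ≤ 6 * (2 * p * cf f + 2) * (C₀ * (x : ℝ) ^ (2 * p)) := mul_le_mul_of_nonneg_left h4 (by positivity)
      _ = _ := by ring
  have h7 : 1 ≤ ((x : ℝ) / T.card) / ρ := by
    rw [le_div_iff₀ hρ, one_mul]
    have : 1 ≤ (x : ℝ) / T.card := by
      rw [le_div_iff₀ hTc, one_mul]
      exact hTx
    linarith
  have h8 : 1 ≤ (((x : ℝ) / T.card) / ρ) ^ (2 * p) := one_le_pow₀ h7
  have h9 : 6 * (((2 * p * (cf f * x ^ d) + 1 : ℕ) : ℝ) + ((x ^ d : ℕ) : ℝ)) *
      energy' p (fun m : {m // m ∈ T} => f.eval ((m.1 : ℕ) : ℤ)) / ((T.card : ℝ) ^ (2 * p) * ρ ^ (2 * p)) ≤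
      6 * (2 * p * cf f + 2) * C₀ * (((x : ℝ) / T.card) / ρ) ^ (2 * p) := by
    rw [div_le_iff₀ (by positivity)]
    refine h6.trans (le_of_eq ?_)
    rw [div_pow, div_pow]
    field_simp
  have h10 : (1 + 6 * (2 * p * cf f + 2) * C₀) * (((x : ℝ) / T.card) / ρ) ^ (2 * p) =
      (((x : ℝ) / T.card) / ρ) ^ (2 * p) + 6 * (2 * p * cf f + 2) * C₀ * (((x : ℝ) / T.card) / ρ) ^ (2 * p) := by ring
  rw [h10]
  exact add_le_add h8 h9

end Pool.Agent.V7H41.PX
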